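import Pool.Agent.Lib.MP_9d46ca_gt.Reduce

/-!
# Closed braids, their Seifert matrices, and negative mutation

Knots are given as closures of braid words (Alexander's theorem: every oriented knot is one).
The strands are vertical, oriented upwards, in the positions `0, 1, …, N - 1` from left to right;
a word is read from the bottom to the top; the closing arcs run on the right-hand side.
-/

set_option autoImplicit false

namespace Pool.Agent.Lib.MP_9d46ca_gt

/-- A braid word: the letter `(i, true)` is the generator `σᵢ` which crosses the strands in the
positions `i` and `i + 1`, the letter `(i, false)` is its inverse. -/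
abbrev BraidWord : Type := List (ℕ × Bool)

/-- `w` is a word in the generators of the braid group on `N` strands. -/
def OnStrands (N : ℕ) (w : BraidWord) : Prop := ∀ x ∈ w, x.1 + 1 < N

/-- The final position of the strand of the braid `w` which starts in the position `i`. -/
def finalPos (w : BraidWord) (i : ℕ) : ℕ :=
  w.foldl (fun j x => if j = x.1 then x.1 + 1 else if j = x.1 + 1 then x.1 else j) i

/-- The closure of the braid `w` on `N` strands is a knot: running along the closed braid, the
strand in the position `0` gets to every position. -/
def ClosureIsKnot (N : ℕ) (w : BraidWord) : Prop :=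
  OnStrands N w ∧ ∀ i < N, ∃ m : ℕ, (finalPos w)^[m] 0 = i

/-- Negative mutation of closed braids. The word `w = a b` on `N` strands splits into a word `a` on
the strands `0, …, n + 1` and a word `b` on the strands `n, …, N - 1`, so that they share the two
strands `n` and `n + 1`. A disk in the plane of the diagram contains `b` and the closed-up strands
`n + 2, …, N - 1`, and its boundary meets the closed braid in four points, two below `b` and two
above `b`, on the strands `n` and `n + 1`. The rotation by `π` of the ball over this disk about the
horizontal axis in the plane turns `b` into the reversed word (with the same signs), the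
orientation of the rotated tangle being reversed. -/
def NegMutant (N : ℕ) (w w' : BraidWord) : Prop :=
  ∃ (n : ℕ) (a b : BraidWord), n + 2 ≤ N ∧ OnStrands (n + 2) a ∧ OnStrands N b ∧
    (∀ x ∈ b, n ≤ x.1) ∧ w = a ++ b ∧ w' = a ++ b.reverse

/-- The generator (column) of the letter number `p`. -/
def gen (w : BraidWord) (p : ℕ) : ℕ := (w.getD p (0, true)).1

/-- The sign `1` or `-1` of the letter number `p`. -/
def sgn (w : BraidWord) (p : ℕ) : ℤ := if (w.getD p (0, true)).2 then 1 else -1

/-- The letters number `p < q` are consecutive occurrences of one generator. The Seifert surface of
the closed braid consists of `N` disks, one for each strand, stacked on top of one another, and of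
a half-twisted band for each letter `σᵢ^{±1}` between the disks `i` and `i + 1`. The pair `(p, q)`
gives a loop, which crosses the band `p` upwards and the band `q` downwards; these loops are a
basis of the first homology group of the surface. -/
def IsLoop (w : BraidWord) (p q : ℕ) : Prop :=
  p < q ∧ q < w.length ∧ gen w p = gen w q ∧ ∀ r < q, p < r → gen w r ≠ gen w p

instance (w : BraidWord) (p q : ℕ) : Decidable (IsLoop w p q) := by
  unfold IsLoop
  infer_instance

/-- The loops of the Seifert surface of a closed braid. -/
abbrev Loop (w : BraidWord) : Type :=
  {x : Fin w.length × Fin w.length // IsLoop w x.1 x.2}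

/-- The linking number `lk(x, y⁺)` of the loop `x` with the positive push-off of the loop `y`
(Collins' rule). -/
def lkPlus (w : BraidWord) (x y : ℕ × ℕ) : ℤ :=
  if gen w x.1 = gen w y.1 then
    -- loops between the same two disks
    if x = y then -((sgn w x.1 + sgn w x.2) / 2)
    else if x.2 = y.1 then (if sgn w x.2 = 1 then 0 else -1)
    else if y.2 = x.1 then (if sgn w y.2 = 1 then 1 else 0)
    else 0
  else if gen w x.1 = gen w y.1 + 1 then
    -- loops in neighbouring columns, `x` in the upper one
    if x.1 < y.1 ∧ y.1 < x.2 ∧ x.2 < y.2 then 1
    else if y.1 < x.1 ∧ x.1 < y.2 ∧ y.2 < x.2 then -1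
    else 0
  else 0

/-- The Seifert matrix of the closure of the braid `w`. -/
def seifertMatrix (w : BraidWord) : Matrix (Loop w) (Loop w) ℤ :=
  fun x y => lkPlus w (x.1.1, x.1.2) (y.1.1, y.1.2)

/-- The invariant `n` of the closure of the braid `w`. -/
noncomputable def nKnot (w : BraidWord) : ℕ := nInv (seifertMatrix w)

end Pool.Agent.Lib.MP_9d46ca_gt
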