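import Pool.Agent.Lib.MP_9d46ca_gt.Words

/-!
# The invariant `n` of the two closed braids
-/

set_option autoImplicit false

namespace Pool.Agent.Lib.MP_9d46ca_gt

open Matrix

/-! ### The first closed braid -/

lemma loops1 : chkLoops (wordA ++ wordB) lt1 60 = true := by decide +kernel

lemma complete1 : chkComplete (wordA ++ wordB) lt1 = true := by decide +kernel

lemma inv1 : chkInv pt1 qt1 60 = true := by decide +kernel

lemma block1 : chkBlock (wordA ++ wordB) lt1 pt1 28 = true := by decide +kernel

lemma diag1 : chkDiag (wordA ++ wordB) lt1 pt1 28 = true := by decide +kernel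

lemma matrix1 : ∀ i j : Fin 2 ⊕ Fin 2, bil (wordA ++ wordB) lt1
    (pt1.getD (num (m := 28) (Sum.inl i)) []) (pt1.getD (num (m := 28) (Sum.inl j)) []) =
      V1 i j := by
  rintro (i | i) (j | j) <;> fin_cases i <;> fin_cases j <;> decide +kernel

theorem nKnot_first : nKnot (wordA ++ wordB) = nInv V1 := by
  refine nKnot_of_table (wordA ++ wordB) lt1 pt1 qt1 28 V1 (det_ne_zero_of_atOne ?_) rfl loops1
    complete1 (by decide +kernel) (by decide +kernel) inv1 block1 diag1 matrix1
  rw [atOne_alexMatrix]
  exact det_sub_V1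

/-! ### The second closed braid -/

lemma loops2 : chkLoops (wordA ++ wordB.reverse) lt2 60 = true := by decide +kernel

lemma complete2 : chkComplete (wordA ++ wordB.reverse) lt2 = true := by decide +kernel

lemma inv2 : chkInv pt2 qt2 60 = true := by decide +kernel

lemma block2 : chkBlock (wordA ++ wordB.reverse) lt2 pt2 28 = true := by decide +kernel

lemma diag2 : chkDiag (wordA ++ wordB.reverse) lt2 pt2 28 = true := by decide +kernel

lemma matrix2 : ∀ i j : Fin 2 ⊕ Fin 2, bil (wordA ++ wordB.reverse) lt2
    (pt2.getD (num (m := 28) (Sum.inl i)) []) (pt2.getD (num (m := 28) (Sum.inl j)) []) =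
      V2 i j := by
  rintro (i | i) (j | j) <;> fin_cases i <;> fin_cases j <;> decide +kernel

theorem nKnot_second : nKnot (wordA ++ wordB.reverse) = nInv V2 := by
  refine nKnot_of_table (wordA ++ wordB.reverse) lt2 pt2 qt2 28 V2 (det_ne_zero_of_atOne ?_) rfl
    loops2 complete2 (by decide +kernel) (by decide +kernel) inv2 block2 diag2 matrix2
  rw [atOne_alexMatrix]
  exact det_sub_V2

/-! ### The closed braids are knots, and mutants of one another -/

/-- A test for knots. -/
def chkKnot (N : ℕ) (w : BraidWord) : Bool :=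
  w.all (fun x => decide (x.1 + 1 < N)) &&
    (List.range N).all fun i => (List.range N).any fun m => (finalPos w)^[m] 0 == i

lemma closureIsKnot_of_chk {N : ℕ} {w : BraidWord} (h : chkKnot N w = true) :
    ClosureIsKnot N w := by
  rw [chkKnot, Bool.and_eq_true] at h
  refine ⟨fun x hx => of_decide_eq_true (List.all_eq_true.1 h.1 x hx), fun i hi => ?_⟩
  obtain ⟨m, -, hm⟩ := List.any_eq_true.1 (List.all_eq_true.1 h.2 i (List.mem_range.2 hi))
  exact ⟨m, eq_of_beq hm⟩

lemma knot1 : ClosureIsKnot 29 (wordA ++ wordB) := closureIsKnot_of_chk (by decide +kernel)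

lemma knot2 : ClosureIsKnot 29 (wordA ++ wordB.reverse) := closureIsKnot_of_chk (by decide +kernel)

lemma mutant : NegMutant 29 (wordA ++ wordB) (wordA ++ wordB.reverse) := by
  refine ⟨13, wordA, wordB, by decide, ?_, ?_, ?_, rfl, rfl⟩
  · intro x hx
    have h : wordA.all (fun x => decide (x.1 + 1 < 13 + 2)) = true := by decide +kernel
    exact of_decide_eq_true (List.all_eq_true.1 h x hx)
  · intro x hx
    have h : wordB.all (fun x => decide (x.1 + 1 < 29)) = true := by decide +kernel
    exact of_decide_eq_true (List.all_eq_true.1 h x hx)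
  · intro x hx
    have h : wordB.all (fun x => decide (13 ≤ x.1)) = true := by decide +kernel
    exact of_decide_eq_true (List.all_eq_true.1 h x hx)

end Pool.Agent.Lib.MP_9d46ca_gt
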