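import Mathlib

/-!
# Blanchfield forms of Seifert matrices and the invariant `n`
-/

set_option autoImplicit false

namespace Pool.Agent.Lib.MP_9d46ca_gt

open Matrix LaurentPolynomial

/-- The ring `Λ = ℤ[t, t⁻¹]`. -/
abbrev Lam : Type := LaurentPolynomial ℤ

/-- The field `Ω = ℚ(t)`, the field of fractions of `Λ`. -/
abbrev Om : Type := FractionRing Lam

/-- The inclusion of `Λ` into `Ω`. -/
noncomputable def inc : Lam →+* Om := algebraMap Lam Om

/-- The conjugate transpose of a matrix over `Λ`, for the involution `t ↦ t⁻¹`. -/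
noncomputable def conjT {ι κ : Type} (A : Matrix ι κ Lam) : Matrix κ ι Lam :=
  (A.map (fun p => invert p))ᵀ

/-- A matrix over `Λ` viewed as a matrix over `Ω`. -/
noncomputable def toOm {ι κ : Type} (A : Matrix ι κ Lam) : Matrix ι κ Om :=
  A.map inc

/-- The module `Λ^k / P Λ^k` presented by a square matrix `P` over `Λ`. -/
def Coker {ι : Type} [Fintype ι] (P : Matrix ι ι Lam) : Type :=
  (ι → Lam) ⧸ LinearMap.range P.mulVecLin

noncomputable instance {ι : Type} [Fintype ι] (P : Matrix ι ι Lam) : AddCommGroup (Coker P) :=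
  inferInstanceAs (AddCommGroup ((ι → Lam) ⧸ LinearMap.range P.mulVecLin))

noncomputable instance {ι : Type} [Fintype ι] (P : Matrix ι ι Lam) : Module Lam (Coker P) :=
  inferInstanceAs (Module Lam ((ι → Lam) ⧸ LinearMap.range P.mulVecLin))

/-- The class of a vector in `Λ^k / P Λ^k`. -/
noncomputable def cls {ι : Type} [Fintype ι] (P : Matrix ι ι Lam) (a : ι → Lam) : Coker P :=
  (Submodule.Quotient.mk a : (ι → Lam) ⧸ LinearMap.range P.mulVecLin)

/-- The element `ā^t B b` of `Ω`. -/
noncomputable def form {ι : Type} [Fintype ι] (B : Matrix ι ι Om) (a b : ι → Lam) : Om :=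
  ∑ i, ∑ j, inc (invert (a i)) * B i j * inc (b j)

/-- The pairing on `Λ^k / P Λ^k` with values in `Ω / Λ` given by the matrix `B` and the pairing on
`Λ^l / Q Λ^l` with values in `Ω / Λ` given by the matrix `D` are isometric. -/
def Isometric {ι κ : Type} [Fintype ι] [Fintype κ] (P : Matrix ι ι Lam) (B : Matrix ι ι Om)
    (Q : Matrix κ κ Lam) (D : Matrix κ κ Om) : Prop :=
  ∃ e : Coker P ≃ₗ[Lam] Coker Q, ∀ (a b : ι → Lam) (c d : κ → Lam),
    e (cls P a) = cls Q c → e (cls P b) = cls Q d → ∃ p : Lam, form B a b - form D c d = inc p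

/-- The presentation matrix `t V - V^t` of the Alexander module of a Seifert matrix `V`. -/
noncomputable def alexMatrix {ι : Type} (V : Matrix ι ι ℤ) : Matrix ι ι Lam :=
  (T 1 : Lam) • V.map (fun n => (C n : Lam)) - (V.map (fun n => (C n : Lam)))ᵀ

/-- The matrix `(1 - t) (t V - V^t)⁻¹` of the Blanchfield pairing of a Seifert matrix `V`. -/
noncomputable def blanchMatrix {ι : Type} [Fintype ι] [DecidableEq ι] (V : Matrix ι ι ℤ) :
    Matrix ι ι Om :=
  (inc (1 - T 1)) • (toOm (alexMatrix V))⁻¹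

/-- The integer matrix `A(1)`. -/
noncomputable def atOne {ι κ : Type} (A : Matrix ι κ Lam) : Matrix ι κ ℤ :=
  A.map (LaurentPolynomial.eval₂ (RingHom.id ℤ) 1)

/-- An integer matrix is congruent over `ℤ` to a diagonal matrix with diagonal entries `±1`. -/
def CongruentToSigns {k : ℕ} (S : Matrix (Fin k) (Fin k) ℤ) : Prop :=
  ∃ (U : Matrix (Fin k) (Fin k) ℤ) (d : Fin k → ℤ), IsUnit U.det ∧
    (∀ i, d i = 1 ∨ d i = -1) ∧ Uᵀ * S * U = Matrix.diagonal d

/-- The hermitian matrix `A` over `Λ` represents the Blanchfield pairing of the Seifert matrix `V`,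
and `A(1)` is congruent to a diagonal matrix with entries `±1`. -/
def Represents {ι : Type} [Fintype ι] [DecidableEq ι] {k : ℕ} (A : Matrix (Fin k) (Fin k) Lam)
    (V : Matrix ι ι ℤ) : Prop :=
  conjT A = A ∧ A.det ≠ 0 ∧
    Isometric A (toOm A)⁻¹ (alexMatrix V) (blanchMatrix V) ∧ CongruentToSigns (atOne A)

/-- The invariant `n` of a Seifert matrix `V` (of a knot with Seifert matrix `V`). -/
noncomputable def nInv {ι : Type} [Fintype ι] [DecidableEq ι] (V : Matrix ι ι ℤ) : ℕ :=
  sInf {k | ∃ A : Matrix (Fin k) (Fin k) Lam, Represents A V}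

/-- `V` is a Seifert matrix: `V - V^t` has determinant `1`. -/
def IsSeifertMatrix {ι : Type} [Fintype ι] [DecidableEq ι] (V : Matrix ι ι ℤ) : Prop :=
  (V - Vᵀ).det = 1

/-- The block sum `V ⊕ W`. -/
def blockSum (V W : Matrix (Fin 2) (Fin 2) ℤ) : Matrix (Fin 2 ⊕ Fin 2) (Fin 2 ⊕ Fin 2) ℤ :=
  Matrix.fromBlocks V 0 0 W

/-! ### Basic facts on classes -/

section

variable {ι : Type} [Fintype ι] (P : Matrix ι ι Lam)

lemma cls_surjective : Function.Surjective (cls P) := Submodule.Quotient.mk_surjective _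

lemma cls_add (a b : ι → Lam) : cls P (a + b) = cls P a + cls P b := rfl

lemma cls_smul (c : Lam) (a : ι → Lam) : cls P (c • a) = c • cls P a := rfl

/-- The class map is linear. -/
noncomputable def clsL : (ι → Lam) →ₗ[Lam] Coker P where
  toFun := cls P
  map_add' := cls_add P
  map_smul' := cls_smul P

lemma clsL_apply (a : ι → Lam) : clsL P a = cls P a := rfl

lemma cls_eq_iff (a b : ι → Lam) : cls P a = cls P b ↔ a - b ∈ LinearMap.range P.mulVecLin :=
  Submodule.Quotient.eq _

end

end Pool.Agent.Lib.MP_9d46ca_gt
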