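import Pool.Agent.Lib.MP_9d46ca_gt.Defs

/-!
# A criterion for isometry by explicit matrices
-/

set_option autoImplicit false

namespace Pool.Agent.Lib.MP_9d46ca_gt

open Matrix LaurentPolynomial

section

variable {ι κ μ : Type}

/-- Vectors over `Λ` viewed over `Ω`. -/
noncomputable def ov (a : ι → Lam) : ι → Om := fun i => inc (a i)

/-- Entrywise conjugation. -/
noncomputable def cj (a : ι → Lam) : ι → Lam := fun i => invert (a i)

lemma cj_add (a b : ι → Lam) : cj (a + b) = cj a + cj b := by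
  funext i; simp [cj]

lemma ov_add (a b : ι → Lam) : ov (a + b) = ov a + ov b := by
  funext i; simp [ov]

variable [Fintype ι] [Fintype κ] [Fintype μ]

lemma form_eq (B : Matrix ι ι Om) (a b : ι → Lam) :
    form B a b = ov (cj a) ⬝ᵥ (B *ᵥ ov b) := by
  unfold form
  simp only [dotProduct, mulVec, ov, cj, Finset.mul_sum, mul_assoc]

lemma cj_mulVec (F : Matrix κ ι Lam) (a : ι → Lam) : cj (F *ᵥ a) = cj a ᵥ* conjT F := by
  funext i
  simp only [cj, mulVec, vecMul, dotProduct, conjT, map_sum, map_mul, transpose_apply, map_apply]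
  exact Finset.sum_congr rfl (fun j _ => mul_comm _ _)

lemma ov_mulVec (F : Matrix κ ι Lam) (a : ι → Lam) : ov (F *ᵥ a) = toOm F *ᵥ ov a := by
  funext i
  simp only [ov, mulVec, dotProduct, toOm, map_sum, map_mul, map_apply]

lemma ov_vecMul (F : Matrix ι κ Lam) (a : ι → Lam) : ov (a ᵥ* F) = ov a ᵥ* toOm F := by
  funext i
  simp only [ov, vecMul, dotProduct, toOm, map_sum, map_mul, map_apply]

lemma ov_dot (a b : ι → Lam) : ov a ⬝ᵥ ov b = inc (a ⬝ᵥ b) := by
  simp only [ov, dotProduct, map_sum, map_mul]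

lemma toOm_mul (A : Matrix κ ι Lam) (B : Matrix ι μ Lam) : toOm (A * B) = toOm A * toOm B :=
  Matrix.map_mul

lemma toOm_smul (c : Lam) (A : Matrix κ ι Lam) : toOm (c • A) = inc c • toOm A := by
  ext i j
  simp [toOm]

lemma toOm_add (A B : Matrix κ ι Lam) : toOm (A + B) = toOm A + toOm B := by
  ext i j
  simp [toOm]

lemma toOm_one [DecidableEq ι] : toOm (1 : Matrix ι ι Lam) = 1 := by
  ext i j
  simp only [toOm, map_apply, Matrix.one_apply]
  split_ifs <;> simp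

lemma isUnit_det_toOm [DecidableEq ι] {A : Matrix ι ι Lam} (h : A.det ≠ 0) :
    IsUnit (toOm A).det := by
  have h1 : (toOm A).det = inc A.det := by
    rw [toOm, RingHom.map_det]
    rfl
  rw [h1, isUnit_iff_ne_zero]
  intro h0
  apply h
  exact (IsFractionRing.injective Lam Om) (by
    have h2 : algebraMap Lam Om A.det = 0 := h0
    rw [h2, map_zero])

lemma conjT_alexMatrix (V : Matrix ι ι ℤ) :
    conjT (alexMatrix V) = (-T (-1) : Lam) • alexMatrix V := by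
  ext1 i j
  simp only [conjT, alexMatrix, transpose_apply, map_apply, Matrix.sub_apply, Matrix.smul_apply,
    smul_eq_mul, map_sub, map_mul, invert_T, invert_C]
  have : (T (-1) : Lam) * T 1 = 1 := by rw [← T_add]; simp
  linear_combination (C (V i j) : Lam) * this

theorem isometric_of_matrices [DecidableEq ι] [DecidableEq κ] {A : Matrix κ κ Lam}
    {V : Matrix ι ι ℤ} (hA : A.det ≠ 0) (hV : (alexMatrix V).det ≠ 0)
    (F : Matrix ι κ Lam) (G : Matrix κ ι Lam) (C₁ : Matrix ι κ Lam) (C₂ : Matrix κ ι Lam)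
    (C₃ : Matrix κ κ Lam) (C₄ : Matrix ι ι Lam) (D : Matrix κ κ Lam)
    (h1 : F * A = alexMatrix V * C₁) (h2 : G * alexMatrix V = A * C₂)
    (h3 : G * F = 1 + A * C₃) (h4 : F * G = 1 + alexMatrix V * C₄)
    (h5 : (1 - T 1 : Lam) • (conjT F * C₁) = 1 + D * A) :
    Isometric A (toOm A)⁻¹ (alexMatrix V) (blanchMatrix V) := by
  set P := alexMatrix V with hP
  have m1 : LinearMap.range A.mulVecLin ≤ (LinearMap.range P.mulVecLin).comap F.mulVecLin := by
    rintro _ ⟨x, rfl⟩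
    refine ⟨C₁ *ᵥ x, ?_⟩
    simp only [Matrix.mulVecLin_apply, Matrix.mulVec_mulVec]
    rw [h1]
  have m2 : LinearMap.range P.mulVecLin ≤ (LinearMap.range A.mulVecLin).comap G.mulVecLin := by
    rintro _ ⟨x, rfl⟩
    refine ⟨C₂ *ᵥ x, ?_⟩
    simp only [Matrix.mulVecLin_apply, Matrix.mulVec_mulVec]
    rw [h2]
  let f : Coker A →ₗ[Lam] Coker P :=
    Submodule.mapQ (LinearMap.range A.mulVecLin) (LinearMap.range P.mulVecLin) F.mulVecLin m1
  let g : Coker P →ₗ[Lam] Coker A :=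
    Submodule.mapQ (LinearMap.range P.mulVecLin) (LinearMap.range A.mulVecLin) G.mulVecLin m2
  have hf : ∀ a, f (cls A a) = cls P (F *ᵥ a) := fun a => rfl
  have hg : ∀ a, g (cls P a) = cls A (G *ᵥ a) := fun a => rfl
  have hfg : ∀ z, f (g z) = z := by
    intro z
    obtain ⟨a, rfl⟩ := cls_surjective _ z
    rw [hg, hf, cls_eq_iff, Matrix.mulVec_mulVec, h4]
    refine ⟨C₄ *ᵥ a, ?_⟩
    rw [Matrix.add_mulVec, Matrix.one_mulVec, Matrix.mulVecLin_apply, Matrix.mulVec_mulVec]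
    abel
  have hgf : ∀ z, g (f z) = z := by
    intro z
    obtain ⟨a, rfl⟩ := cls_surjective _ z
    rw [hf, hg, cls_eq_iff, Matrix.mulVec_mulVec, h3]
    refine ⟨C₃ *ᵥ a, ?_⟩
    rw [Matrix.add_mulVec, Matrix.one_mulVec, Matrix.mulVecLin_apply, Matrix.mulVec_mulVec]
    abel
  refine ⟨LinearEquiv.ofLinearMap f g (LinearMap.ext hfg) (LinearMap.ext hgf), ?_⟩
  intro a b c d hc hd
  have hc' : cls P (F *ᵥ a) = cls P c := hc
  have hd' : cls P (F *ᵥ b) = cls P d := hd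
  rw [eq_comm, cls_eq_iff] at hc' hd'
  obtain ⟨x, hx⟩ := hc'
  obtain ⟨y, hy⟩ := hd'
  have hc2 : c = F *ᵥ a + P *ᵥ x := by
    rw [← Matrix.mulVecLin_apply P x, hx]; abel
  have hd2 : d = F *ᵥ b + P *ᵥ y := by
    rw [← Matrix.mulVecLin_apply P y, hy]; abel
  have uA := isUnit_det_toOm hA
  have uP := isUnit_det_toOm hV
  have hPF : (toOm P)⁻¹ * toOm F = toOm C₁ * (toOm A)⁻¹ := by
    have e1 : toOm F * toOm A = toOm P * toOm C₁ := by rw [← toOm_mul, h1, toOm_mul]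
    calc (toOm P)⁻¹ * toOm F = (toOm P)⁻¹ * (toOm F * toOm A) * (toOm A)⁻¹ := by
          rw [Matrix.mul_assoc, Matrix.mul_assoc, Matrix.mul_nonsing_inv _ uA, Matrix.mul_one]
      _ = (toOm P)⁻¹ * toOm P * (toOm C₁ * (toOm A)⁻¹) := by
          rw [e1]; simp only [Matrix.mul_assoc]
      _ = toOm C₁ * (toOm A)⁻¹ := by rw [Matrix.nonsing_inv_mul _ uP, Matrix.one_mul]
  set t1 : Om := inc (1 - T 1) with ht1
  -- the right-hand vector
  have hr : blanchMatrix V *ᵥ ov d =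
      t1 • ((toOm C₁ * (toOm A)⁻¹) *ᵥ ov b) + t1 • ov y := by
    rw [blanchMatrix, ← hP, ← ht1, hd2, ov_add, ov_mulVec, ov_mulVec, Matrix.smul_mulVec,
      Matrix.mulVec_add, Matrix.mulVec_mulVec, Matrix.mulVec_mulVec, hPF,
      Matrix.nonsing_inv_mul _ uP, Matrix.one_mulVec, smul_add]
  have hcj : ov (cj c) = ov (cj a) ᵥ* toOm (conjT F) +
      (inc (-T (-1))) • (ov (cj x) ᵥ* toOm P) := by
    rw [hc2, cj_add, cj_mulVec, cj_mulVec, conjT_alexMatrix, ov_add, ov_vecMul, ov_vecMul,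
      toOm_smul, Matrix.vecMul_smul]
  have hP2 : (toOm P) *ᵥ (blanchMatrix V *ᵥ ov d) = t1 • ov d := by
    rw [blanchMatrix, ← hP, ← ht1, Matrix.smul_mulVec, Matrix.mulVec_smul, Matrix.mulVec_mulVec,
      Matrix.mul_nonsing_inv _ uP, Matrix.one_mulVec]
  have h5' : t1 • (toOm (conjT F) * toOm C₁) = 1 + toOm D * toOm A := by
    rw [← toOm_mul, ht1, ← toOm_smul, h5, toOm_add, toOm_one, toOm_mul]
  have main : ov (cj c) ⬝ᵥ (blanchMatrix V *ᵥ ov d) =
      ov (cj a) ⬝ᵥ ((toOm A)⁻¹ *ᵥ ov b) + inc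
        (cj a ⬝ᵥ (D *ᵥ b) + (1 - T 1) * ((cj a ᵥ* conjT F) ⬝ᵥ y) +
          (-T (-1)) * ((1 - T 1) * (cj x ⬝ᵥ d))) := by
    rw [hcj, add_dotProduct, smul_dotProduct, ← Matrix.dotProduct_mulVec, ← Matrix.dotProduct_mulVec,
      hP2, hr, Matrix.mulVec_add, dotProduct_add, Matrix.mulVec_smul, Matrix.mulVec_smul,
      Matrix.mulVec_mulVec, ← Matrix.mul_assoc, ← Matrix.smul_mulVec, ← Matrix.smul_mul, h5',
      Matrix.add_mul, Matrix.one_mul, Matrix.mul_assoc, Matrix.mul_nonsing_inv _ uA,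
      Matrix.mul_one, Matrix.add_mulVec, dotProduct_add]
    simp only [map_add, map_mul, ← ov_dot, ov_vecMul, dotProduct_smul, smul_eq_mul,
      ← ht1, Matrix.dotProduct_mulVec]
    ring
  rw [form_eq, form_eq, main]
  refine ⟨-(cj a ⬝ᵥ (D *ᵥ b) + (1 - T 1) * ((cj a ᵥ* conjT F) ⬝ᵥ y) +
          (-T (-1)) * ((1 - T 1) * (cj x ⬝ᵥ d))), ?_⟩
  rw [map_neg]
  ring

end

end Pool.Agent.Lib.MP_9d46ca_gt
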