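import Mathlib

/-!
# Arithmetic in the ring of integers of the imaginary quadratic field of discriminant `-211`
-/

set_option autoImplicit false

namespace Pool.Agent.Lib.MP_9d46ca_gt

open QuadraticAlgebra

/-- The order `ℤ[ω]` with `ω * ω = -53 + ω`. -/
abbrev OO : Type := QuadraticAlgebra ℤ (-53) 1

/-- The algebra `ℚ(ω)`. -/
abbrev SS : Type := QuadraticAlgebra ℚ (-53) 1

lemma norm_OO (x : OO) : norm x = x.re * x.re + x.re * x.im + 53 * x.im * x.im := by
  rw [norm_def]; ring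

lemma norm_OO_nonneg (x : OO) : 0 ≤ norm x := by
  rw [norm_OO]
  nlinarith [sq_nonneg (2 * x.re + x.im), sq_nonneg x.im]

/-- An element whose norm is `25 * 53 ^ j` is divisible by `5`. -/
lemma five_dvd (j : ℕ) : ∀ δ : OO, norm δ = 25 * 53 ^ j → ∃ γ : OO, δ = 5 * γ := by
  induction j with
  | zero =>
    intro δ h
    rw [norm_OO, pow_zero, mul_one] at h
    have h1 : (2 * δ.re + δ.im) * (2 * δ.re + δ.im) + 211 * (δ.im * δ.im) = 100 := by linarith
    have hy : δ.im = 0 := by
      by_contra hne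
      have h2 : 1 ≤ δ.im * δ.im := by
        have := mul_self_pos.mpr hne
        linarith
      nlinarith [mul_self_nonneg (2 * δ.re + δ.im)]
    have hx : δ.re * δ.re = 25 := by
      rw [hy] at h
      linarith
    have hx' : δ.re = 5 ∨ δ.re = -5 := by
      have h3 : (δ.re - 5) * (δ.re + 5) = 0 := by linarith
      rcases mul_eq_zero.mp h3 with h4 | h4
      · left; linarith
      · right; linarith
    rcases hx' with h5 | h5
    · refine ⟨1, ?_⟩
      ext
      · rw [h5]; simp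
      · rw [hy]; simp
    · refine ⟨-1, ?_⟩
      ext
      · rw [h5]; simp
      · rw [hy]; simp
  | succ j ih =>
    intro δ h
    have h0 := h
    rw [norm_OO] at h
    have hdiv : (53 : ℤ) ∣ δ.re * (δ.re + δ.im) := by
      refine ⟨25 * 53 ^ j - δ.im * δ.im, ?_⟩
      rw [pow_succ] at h
      linarith
    have hp : Prime (53 : ℤ) := by
      have : Nat.Prime 53 := by norm_num
      exact Nat.prime_iff_prime_int.mp this
    rcases hp.dvd_or_dvd hdiv with ⟨x, hx⟩ | ⟨z, hz⟩
    · -- divisible by ω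
      obtain ⟨γ, hγ⟩ := ih ⟨x + δ.im, -x⟩ (by
        rw [norm_OO]
        have h1 : 53 * ((x + δ.im) * (x + δ.im) + (x + δ.im) * (-x) + 53 * (-x) * (-x)) =
            53 * (25 * 53 ^ j) := by
          rw [hx, pow_succ] at h
          linarith
        exact mul_left_cancel₀ (by norm_num : (53:ℤ) ≠ 0) h1)
      refine ⟨⟨0, 1⟩ * γ, ?_⟩
      have e1 : δ = (⟨0, 1⟩ : OO) * ⟨x + δ.im, -x⟩ := by
        ext
        · simp [hx]
        · simp
      rw [e1, hγ]
      ring
    · -- divisible by the conjugate of ω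
      obtain ⟨γ, hγ⟩ := ih ⟨-δ.im, z⟩ (by
        rw [norm_OO]
        have hx : δ.re = 53 * z - δ.im := by linarith
        have h1 : 53 * ((-δ.im) * (-δ.im) + (-δ.im) * z + 53 * z * z) =
            53 * (25 * 53 ^ j) := by
          rw [hx, pow_succ] at h
          linarith
        exact mul_left_cancel₀ (by norm_num : (53:ℤ) ≠ 0) h1)
      refine ⟨⟨1, -1⟩ * γ, ?_⟩
      have hx : δ.re = 53 * z - δ.im := by linarith
      have e1 : δ = (⟨1, -1⟩ : OO) * ⟨-δ.im, z⟩ := by
        ext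
        · simp [hx]; ring
        · simp
      rw [e1, hγ]
      ring

/-- The square of the ideal `(5, 1 + ω)` is not principal, even after inverting `53`. -/
lemma not_principal (k : ℕ) (A B C r₁ r₂ : OO)
    (h1 : r₁ * (⟨-52, 3⟩ * A + ⟨5, 5⟩ * B + 25 * C) = 25 * 53 ^ (2 * k))
    (h2 : r₂ * (⟨-52, 3⟩ * A + ⟨5, 5⟩ * B + 25 * C) = ⟨-52, 3⟩ * 53 ^ (2 * k)) : False := by
  set δ : OO := ⟨-52, 3⟩ * A + ⟨5, 5⟩ * B + 25 * C with hδ
  -- the norm of `δ` is divisible by 25
  obtain ⟨n, hn⟩ : ∃ n : ℤ, norm δ = 25 * n := by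
    have hre : δ.re = -52 * A.re - 159 * A.im + 5 * B.re - 265 * B.im + 25 * C.re := by
      rw [hδ]; simp; ring
    have him : δ.im = 3 * A.re - 49 * A.im + 5 * B.re + 10 * B.im + 25 * C.im := by
      rw [hδ]; simp; ring
    rw [norm_OO, hre, him]
    have : ∀ a b c d e f : ℤ,
        ∃ n, (-52 * a - 159 * b + 5 * c - 265 * d + 25 * e) *
          (-52 * a - 159 * b + 5 * c - 265 * d + 25 * e) +
          (-52 * a - 159 * b + 5 * c - 265 * d + 25 * e) * (3 * a - 49 * b + 5 * c + 10 * d + 25 * f) +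
          53 * (3 * a - 49 * b + 5 * c + 10 * d + 25 * f) *
          (3 * a - 49 * b + 5 * c + 10 * d + 25 * f) = 25 * n := by
      intro a b c d e f
      refine ⟨121 * a * a + 121 * a * b + 33 * a * c + 1177 * a * d - 101 * a * e +
        266 * a * f + 6413 * b * b - 1144 * b * c + 1749 * b * d - 367 * b * e -
        5353 * b * f + 55 * c * c + 55 * c * d + 15 * c * e + 535 * c * f + 2915 * d * d -
        520 * d * e + 795 * d * f + 25 * e * e + 25 * e * f + 1325 * f * f, ?_⟩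
      ring
    exact this _ _ _ _ _ _
  have h53 : norm (53 ^ (2 * k) : OO) = 53 ^ (4 * k) := by
    rw [map_pow]
    have : norm (53 : OO) = 53 ^ 2 := by
      have := norm_intCast (a := (-53 : ℤ)) (b := 1) 53
      simpa using this
    rw [this, ← pow_mul]
    congr 1
    ring
  have h25 : norm (25 : OO) = 625 := by
    have := norm_intCast (a := (-53 : ℤ)) (b := 1) 25
    simpa using this
  have e1 := congrArg QuadraticAlgebra.norm h1
  have e2 := congrArg QuadraticAlgebra.norm h2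
  rw [map_mul, map_mul, h53, h25, hn] at e1
  rw [map_mul, map_mul, h53, hn] at e2
  have h3025 : norm (⟨-52, 3⟩ : OO) = 3025 := by
    rw [norm_OO]; norm_num
  rw [h3025] at e2
  have e1' : norm r₁ * n = 25 * 53 ^ (4 * k) := by
    have : (25:ℤ) * (norm r₁ * n) = 25 * (25 * 53 ^ (4 * k)) := by linarith
    exact mul_left_cancel₀ (by norm_num) this
  have e2' : norm r₂ * n = 121 * 53 ^ (4 * k) := by
    have : (25:ℤ) * (norm r₂ * n) = 25 * (121 * 53 ^ (4 * k)) := by linarith
    exact mul_left_cancel₀ (by norm_num) this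
  have hdvd : n ∣ 53 ^ (4 * k) := by
    refine ⟨6 * norm r₂ - 29 * norm r₁, ?_⟩
    linear_combination 29 * e1' - 6 * e2'
  have hnn : 0 ≤ n := by
    have := norm_OO_nonneg δ
    rw [hn] at this
    linarith
  obtain ⟨j, hj⟩ : ∃ j : ℕ, n = 53 ^ j := by
    have hp : Nat.Prime 53 := by norm_num
    have : n.natAbs ∣ 53 ^ (4 * k) := by
      have := Int.natAbs_dvd_natAbs.mpr hdvd
      rwa [Int.natAbs_pow] at this
    obtain ⟨j, -, hj⟩ := (Nat.dvd_prime_pow hp).mp this
    refine ⟨j, ?_⟩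
    have h3 : (n.natAbs : ℤ) = n := Int.natAbs_of_nonneg hnn
    rw [← h3, hj]
    push_cast
    rfl
  obtain ⟨γ, hγ⟩ := five_dvd j δ (by rw [hn, hj])
  rw [hγ] at h2
  have h4 := congrArg QuadraticAlgebra.im h2
  have h5 : (⟨-52, 3⟩ * 53 ^ (2 * k) : OO).im = 3 * 53 ^ (2 * k) := by
    have : (53 ^ (2 * k) : OO) = QuadraticAlgebra.C (53 ^ (2 * k)) := by
      rw [C_pow]; rfl
    rw [this, im_mul, re_C, im_C]
    ring
  rw [h5] at h4
  have h6 : (r₂ * (5 * γ)).im = 5 * (r₂ * γ).im := by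
    have : r₂ * (5 * γ) = 5 * (r₂ * γ) := by ring
    rw [this]
    simp
  rw [h6] at h4
  have h7 : (5:ℤ) ∣ 3 * 53 ^ (2 * k) := ⟨_, h4.symm⟩
  have hp5 : Prime (5 : ℤ) := by
    have : Nat.Prime 5 := by norm_num
    exact Nat.prime_iff_prime_int.mp this
  rcases hp5.dvd_or_dvd h7 with h8 | h8
  · omega
  · have := hp5.dvd_of_dvd_pow h8
    omega

end Pool.Agent.Lib.MP_9d46ca_gt
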