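import Pool.Agent.Lib.MP_9d46ca_gt.Defs
import Pool.Agent.Lib.MP_9d46ca_gt.Order

/-!
# The lower bound
-/

set_option autoImplicit false

namespace Pool.Agent.Lib.MP_9d46ca_gt

open Matrix LaurentPolynomial QuadraticAlgebra

/-- The unit by which `t` acts. -/
def tau : SSˣ where
  val := ⟨1, -1 / 53⟩
  inv := ⟨52 / 53, 1 / 53⟩
  val_inv := by ext <;> simp <;> norm_num
  inv_val := by ext <;> simp <;> norm_num

/-- The evaluation of Laurent polynomials. -/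
noncomputable def evS : Lam →+* SS := LaurentPolynomial.eval₂ (Int.castRingHom SS) tau

lemma evS_T : evS (T 1) = ⟨1, -1 / 53⟩ := by
  rw [evS, eval₂_T, zpow_one]
  rfl

lemma evS_C (n : ℤ) : evS (C n) = (n : SS) := by
  rw [evS, eval₂_C]
  rfl

/-- The inclusion of the order into the field. -/
def emb : OO →+* SS where
  toFun x := ⟨x.re, x.im⟩
  map_one' := by ext <;> simp
  map_mul' x y := by ext <;> simp
  map_zero' := by ext <;> simp
  map_add' x y := by ext <;> simp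

lemma emb_apply (x : OO) : emb x = ⟨x.re, x.im⟩ := rfl

lemma emb_injective : Function.Injective emb := by
  intro x y h
  have h1 := congrArg QuadraticAlgebra.re h
  have h2 := congrArg QuadraticAlgebra.im h
  simp only [emb_apply] at h1 h2
  ext
  · exact_mod_cast h1
  · exact_mod_cast h2

/-- The elements of the field whose denominator is a power of `53`. -/
def Fr (z : SS) : Prop := ∃ (k : ℕ) (x : OO), 53 ^ k * z = emb x

lemma Fr.lift {z : SS} {k : ℕ} {x : OO} (h : 53 ^ k * z = emb x) (l : ℕ) :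
    53 ^ (k + l) * z = emb (53 ^ l * x) := by
  rw [map_mul, ← h, map_pow]
  have : emb 53 = 53 := map_ofNat emb 53
  rw [this, pow_add]
  ring

lemma Fr.add {z w : SS} (hz : Fr z) (hw : Fr w) : Fr (z + w) := by
  obtain ⟨k, x, hx⟩ := hz
  obtain ⟨l, y, hy⟩ := hw
  refine ⟨k + l, 53 ^ l * x + 53 ^ k * y, ?_⟩
  have h1 := Fr.lift hx l
  have h2 := Fr.lift hy k
  rw [add_comm l k] at h2
  rw [mul_add, h1, h2, ← map_add]

lemma Fr.mul {z w : SS} (hz : Fr z) (hw : Fr w) : Fr (z * w) := by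
  obtain ⟨k, x, hx⟩ := hz
  obtain ⟨l, y, hy⟩ := hw
  refine ⟨k + l, x * y, ?_⟩
  rw [map_mul, ← hx, ← hy, pow_add]
  ring

lemma Fr.neg {z : SS} (hz : Fr z) : Fr (-z) := by
  obtain ⟨k, x, hx⟩ := hz
  refine ⟨k, -x, ?_⟩
  rw [map_neg, ← hx]
  ring

lemma Fr.sub {z w : SS} (hz : Fr z) (hw : Fr w) : Fr (z - w) := by
  rw [sub_eq_add_neg]
  exact hz.add hw.neg

lemma Fr.pow {z : SS} (hz : Fr z) (n : ℕ) : Fr (z ^ n) := by
  induction n with
  | zero => exact ⟨0, 1, by simp⟩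
  | succ n ih => rw [pow_succ]; exact ih.mul hz

lemma fr_int (n : ℤ) : Fr (n : SS) := ⟨0, n, by rw [map_intCast]; ring⟩

lemma fr_tau : Fr (tau : SS) := ⟨1, ⟨53, -1⟩, by
  rw [emb_apply]
  ext
  · simp [tau]
  · simp [tau]; norm_num⟩

lemma fr_tau_inv : Fr ((tau⁻¹ : SSˣ) : SS) := ⟨1, ⟨52, 1⟩, by
  rw [emb_apply]
  ext
  · simp [tau, Units.inv_mk]; norm_num
  · simp [tau, Units.inv_mk]⟩

lemma fr_evS (p : Lam) : Fr (evS p) := by
  induction p using LaurentPolynomial.induction_on' with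
  | add p q hp hq => rw [map_add]; exact hp.add hq
  | C_mul_T n a =>
    rw [evS, eval₂_C_mul_T]
    refine (fr_int a).mul ?_
    rcases n with n | n
    · have : ((tau ^ (Int.ofNat n) : SSˣ) : SS) = (tau : SS) ^ n := by simp
      rw [this]
      exact fr_tau.pow n
    · have : ((tau ^ (Int.negSucc n) : SSˣ) : SS) = ((tau⁻¹ : SSˣ) : SS) ^ (n + 1) := by
        rw [zpow_negSucc, ← inv_pow, Units.val_pow_eq_pow_val]
      rw [this]
      exact fr_tau_inv.pow (n + 1)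

/-- The Seifert matrix of a pretzel knot. -/
def VV : Matrix (Fin 2) (Fin 2) ℤ := !![5, 1; 2, 11]

/-- The first Seifert matrix. -/
def V1 : Matrix (Fin 2 ⊕ Fin 2) (Fin 2 ⊕ Fin 2) ℤ := Matrix.fromBlocks VV 0 0 (-VV)

/-- First functional. -/
noncomputable def rho1 (a : Fin 2 ⊕ Fin 2 → Lam) : SS :=
  evS (a (Sum.inl 0)) * ⟨-1, -1⟩ + evS (a (Sum.inl 1)) * 5

/-- Second functional. -/
noncomputable def rho2 (a : Fin 2 ⊕ Fin 2 → Lam) : SS :=
  evS (a (Sum.inr 0)) * ⟨-1, -1⟩ + evS (a (Sum.inr 1)) * 5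

lemma rho1_lin (α β : Lam) (a b : Fin 2 ⊕ Fin 2 → Lam) :
    rho1 (α • a + β • b) = evS α * rho1 a + evS β * rho1 b := by
  simp only [rho1, Pi.add_apply, Pi.smul_apply, smul_eq_mul, map_add, map_mul]
  ring

lemma rho2_lin (α β : Lam) (a b : Fin 2 ⊕ Fin 2 → Lam) :
    rho2 (α • a + β • b) = evS α * rho2 a + evS β * rho2 b := by
  simp only [rho2, Pi.add_apply, Pi.smul_apply, smul_eq_mul, map_add, map_mul]
  ring

lemma rho1_sub (a b : Fin 2 ⊕ Fin 2 → Lam) : rho1 (a - b) = rho1 a - rho1 b := by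
  simp only [rho1, Pi.sub_apply, map_sub]
  ring

lemma rho2_sub (a b : Fin 2 ⊕ Fin 2 → Lam) : rho2 (a - b) = rho2 a - rho2 b := by
  simp only [rho2, Pi.sub_apply, map_sub]
  ring

lemma alexMatrix_apply {ι : Type} (V : Matrix ι ι ℤ) (i j : ι) :
    alexMatrix V i j = T 1 * C (V i j) - C (V j i) := rfl

lemma alexMatrix_mulVec {ι : Type} [Fintype ι] (V : Matrix ι ι ℤ) (c : ι → Lam) (i : ι) :
    (alexMatrix V).mulVecLin c i = ∑ j, (T 1 * C (V i j) - C (V j i)) * c j := rfl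

lemma rho1_range {a : Fin 2 ⊕ Fin 2 → Lam} (h : a ∈ LinearMap.range (alexMatrix V1).mulVecLin) :
    rho1 a = 0 := by
  obtain ⟨c, rfl⟩ := h
  have e0 : ((alexMatrix V1).mulVecLin c) (Sum.inl 0) =
      (T 1 * C 5 - C 5) * c (Sum.inl 0) + (T 1 * C 1 - C 2) * c (Sum.inl 1) := by
    rw [alexMatrix_mulVec, Fintype.sum_sum_type, Fin.sum_univ_two, Fin.sum_univ_two]
    simp [V1, VV]
  have e1 : ((alexMatrix V1).mulVecLin c) (Sum.inl 1) =
      (T 1 * C 2 - C 1) * c (Sum.inl 0) + (T 1 * C 11 - C 11) * c (Sum.inl 1) := by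
    rw [alexMatrix_mulVec, Fintype.sum_sum_type, Fin.sum_univ_two, Fin.sum_univ_two]
    simp [V1, VV]
  rw [rho1, e0, e1]
  simp only [map_add, map_mul, map_sub, evS_T, evS_C]
  generalize evS (c (Sum.inl 0)) = x
  generalize evS (c (Sum.inl 1)) = y
  ext
  · simp; ring
  · simp; ring

lemma rho2_range {a : Fin 2 ⊕ Fin 2 → Lam} (h : a ∈ LinearMap.range (alexMatrix V1).mulVecLin) :
    rho2 a = 0 := by
  obtain ⟨c, rfl⟩ := h
  have e0 : ((alexMatrix V1).mulVecLin c) (Sum.inr 0) =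
      (T 1 * C (-5) - C (-5)) * c (Sum.inr 0) + (T 1 * C (-1) - C (-2)) * c (Sum.inr 1) := by
    rw [alexMatrix_mulVec, Fintype.sum_sum_type, Fin.sum_univ_two, Fin.sum_univ_two]
    simp [V1, VV]
  have e1 : ((alexMatrix V1).mulVecLin c) (Sum.inr 1) =
      (T 1 * C (-2) - C (-1)) * c (Sum.inr 0) + (T 1 * C (-11) - C (-11)) * c (Sum.inr 1) := by
    rw [alexMatrix_mulVec, Fintype.sum_sum_type, Fin.sum_univ_two, Fin.sum_univ_two]
    simp [V1, VV]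
  rw [rho2, e0, e1]
  simp only [map_add, map_mul, map_sub, evS_T, evS_C]
  generalize evS (c (Sum.inr 0)) = x
  generalize evS (c (Sum.inr 1)) = y
  ext
  · simp; ring
  · simp; ring

/-- Common denominators. -/
lemma common_denominator {z₁ z₂ z₃ z₄ z₅ : SS} (h₁ : Fr z₁) (h₂ : Fr z₂) (h₃ : Fr z₃) (h₄ : Fr z₄)
    (h₅ : Fr z₅) : ∃ (k : ℕ) (x₁ x₂ x₃ x₄ x₅ : OO), 53 ^ k * z₁ = emb x₁ ∧ 53 ^ k * z₂ = emb x₂ ∧
      53 ^ k * z₃ = emb x₃ ∧ 53 ^ k * z₄ = emb x₄ ∧ 53 ^ k * z₅ = emb x₅ := by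
  obtain ⟨k₁, x₁, h₁⟩ := h₁
  obtain ⟨k₂, x₂, h₂⟩ := h₂
  obtain ⟨k₃, x₃, h₃⟩ := h₃
  obtain ⟨k₄, x₄, h₄⟩ := h₄
  obtain ⟨k₅, x₅, h₅⟩ := h₅
  refine ⟨k₁ + k₂ + k₃ + k₄ + k₅, 53 ^ (k₂ + k₃ + k₄ + k₅) * x₁, 53 ^ (k₁ + k₃ + k₄ + k₅) * x₂,
    53 ^ (k₁ + k₂ + k₄ + k₅) * x₃, 53 ^ (k₁ + k₂ + k₃ + k₅) * x₄, 53 ^ (k₁ + k₂ + k₃ + k₄) * x₅,
    ?_, ?_, ?_, ?_, ?_⟩
  · rw [← Fr.lift h₁]; congr 2; ring
  · rw [← Fr.lift h₂]; congr 2; ring
  · rw [← Fr.lift h₃]; congr 2; ring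
  · rw [← Fr.lift h₄]; congr 2; ring
  · rw [← Fr.lift h₅]; congr 2; ring

/-- The module of the first Seifert matrix is not generated by two elements. -/
lemma not_two_generated (u w : Coker (alexMatrix V1))
    (h : ∀ z : Coker (alexMatrix V1), ∃ α β : Lam, z = α • u + β • w) : False := by
  obtain ⟨u, rfl⟩ := cls_surjective _ u
  obtain ⟨w, rfl⟩ := cls_surjective _ w
  have key : ∀ a : Fin 2 ⊕ Fin 2 → Lam, ∃ α β : Lam,
      rho1 a = evS α * rho1 u + evS β * rho1 w ∧ rho2 a = evS α * rho2 u + evS β * rho2 w := by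
    intro a
    obtain ⟨α, β, hαβ⟩ := h (cls _ a)
    rw [← cls_smul, ← cls_smul, ← cls_add, cls_eq_iff] at hαβ
    refine ⟨α, β, ?_, ?_⟩
    · have := rho1_range hαβ
      rw [rho1_sub, rho1_lin] at this
      exact sub_eq_zero.mp this
    · have := rho2_range hαβ
      rw [rho2_sub, rho2_lin] at this
      exact sub_eq_zero.mp this
  obtain ⟨α₁, β₁, h11, h12⟩ := key (Pi.single (Sum.inl 0) 1)
  obtain ⟨α₂, β₂, h21, h22⟩ := key (Pi.single (Sum.inl 1) 1)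
  obtain ⟨α₃, β₃, h31, h32⟩ := key (Pi.single (Sum.inr 0) 1)
  obtain ⟨α₄, β₄, h41, h42⟩ := key (Pi.single (Sum.inr 1) 1)
  have e11 : rho1 (Pi.single (Sum.inl 0) 1) = ⟨-1, -1⟩ := by simp [rho1]
  have e12 : rho2 (Pi.single (Sum.inl 0) 1) = 0 := by simp [rho2]
  have e21 : rho1 (Pi.single (Sum.inl 1) 1) = 5 := by simp [rho1]
  have e22 : rho2 (Pi.single (Sum.inl 1) 1) = 0 := by simp [rho2]
  have e31 : rho1 (Pi.single (Sum.inr 0) 1) = 0 := by simp [rho1]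
  have e32 : rho2 (Pi.single (Sum.inr 0) 1) = ⟨-1, -1⟩ := by simp [rho2]
  have e41 : rho1 (Pi.single (Sum.inr 1) 1) = 0 := by simp [rho1]
  have e42 : rho2 (Pi.single (Sum.inr 1) 1) = 5 := by simp [rho2]
  rw [e11] at h11
  rw [e12] at h12
  rw [e21] at h21
  rw [e22] at h22
  rw [e31] at h31
  rw [e32] at h32
  rw [e41] at h41
  rw [e42] at h42
  set p₁ := evS (u (Sum.inl 0)) with hp₁
  set p₂ := evS (u (Sum.inl 1)) with hp₂
  set p₃ := evS (u (Sum.inr 0)) with hp₃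
  set p₄ := evS (u (Sum.inr 1)) with hp₄
  set q₁ := evS (w (Sum.inl 0)) with hq₁
  set q₂ := evS (w (Sum.inl 1)) with hq₂
  set q₃ := evS (w (Sum.inr 0)) with hq₃
  set q₄ := evS (w (Sum.inr 1)) with hq₄
  have fp₁ : Fr p₁ := fr_evS _
  have fp₂ : Fr p₂ := fr_evS _
  have fp₃ : Fr p₃ := fr_evS _
  have fp₄ : Fr p₄ := fr_evS _
  have fq₁ : Fr q₁ := fr_evS _
  have fq₂ : Fr q₂ := fr_evS _
  have fq₃ : Fr q₃ := fr_evS _
  have fq₄ : Fr q₄ := fr_evS _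
  have U1 : rho1 u = p₁ * ⟨-1, -1⟩ + p₂ * 5 := rfl
  have U2 : rho2 u = p₃ * ⟨-1, -1⟩ + p₄ * 5 := rfl
  have W1 : rho1 w = q₁ * ⟨-1, -1⟩ + q₂ * 5 := rfl
  have W2 : rho2 w = q₃ * ⟨-1, -1⟩ + q₄ * 5 := rfl
  obtain ⟨k, A, B, C, r₁, r₂, hA, hB, hC, hr₁, hr₂⟩ := common_denominator
    (z₁ := p₁ * q₃ - p₃ * q₁) (z₂ := p₃ * q₂ + p₄ * q₁ - p₁ * q₄ - p₂ * q₃)
    (z₃ := p₂ * q₄ - p₄ * q₂) (z₄ := evS α₂ * evS β₄ - evS β₂ * evS α₄)
    (z₅ := evS α₁ * evS β₃ - evS β₁ * evS α₃)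
    ((fp₁.mul fq₃).sub (fp₃.mul fq₁))
    ((((fp₃.mul fq₂).add (fp₄.mul fq₁)).sub (fp₁.mul fq₄)).sub (fp₂.mul fq₃))
    ((fp₂.mul fq₄).sub (fp₄.mul fq₂))
    (((fr_evS _).mul (fr_evS _)).sub ((fr_evS _).mul (fr_evS _)))
    (((fr_evS _).mul (fr_evS _)).sub ((fr_evS _).mul (fr_evS _)))
  -- the determinant
  have hδ : rho1 u * rho2 w - rho2 u * rho1 w =
      ⟨-52, 3⟩ * (p₁ * q₃ - p₃ * q₁) + ⟨5, 5⟩ * (p₃ * q₂ + p₄ * q₁ - p₁ * q₄ - p₂ * q₃) +
      25 * (p₂ * q₄ - p₄ * q₂) := by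
    have c1 : (⟨-52, 3⟩ : SS) = ⟨-1, -1⟩ * ⟨-1, -1⟩ := by ext <;> simp <;> norm_num
    have c2 : (⟨5, 5⟩ : SS) = -5 * ⟨-1, -1⟩ := by ext <;> simp
    rw [U1, U2, W1, W2, c1, c2]
    ring
  have hr1 : (evS α₂ * evS β₄ - evS β₂ * evS α₄) * (rho1 u * rho2 w - rho2 u * rho1 w) = 25 := by
    have : (25 : SS) = 5 * 5 - 0 * 0 := by norm_num
    rw [this]
    nth_rewrite 1 [h21]
    nth_rewrite 1 [h42]
    nth_rewrite 1 [h22]
    rw [h41]
    ring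
  have hr2 : (evS α₁ * evS β₃ - evS β₁ * evS α₃) * (rho1 u * rho2 w - rho2 u * rho1 w) =
      ⟨-52, 3⟩ := by
    have c1 : (⟨-52, 3⟩ : SS) = ⟨-1, -1⟩ * ⟨-1, -1⟩ - 0 * 0 := by ext <;> simp <;> norm_num
    have c2 : (⟨-1, -1⟩ : SS) * ⟨-1, -1⟩ - 0 * 0 =
        (evS α₁ * rho1 u + evS β₁ * rho1 w) * (evS α₃ * rho2 u + evS β₃ * rho2 w) -
        (evS α₁ * rho2 u + evS β₁ * rho2 w) * (evS α₃ * rho1 u + evS β₃ * rho1 w) := by
      rw [← h11, ← h32, ← h12, ← h31]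
    rw [c1, c2]
    ring
  refine not_principal k A B C r₁ r₂ ?_ ?_
  · apply emb_injective
    have e53 : emb 53 = 53 := map_ofNat emb 53
    have e25 : emb 25 = 25 := map_ofNat emb 25
    have e2 : emb ⟨-52, 3⟩ = ⟨-52, 3⟩ := by rw [emb_apply]; ext <;> simp
    have e3 : emb ⟨5, 5⟩ = ⟨5, 5⟩ := by rw [emb_apply]; ext <;> simp
    rw [map_mul, map_add, map_add, map_mul, map_mul, map_mul, map_mul, map_pow, e53, e25, e2, e3,
      ← hr₁, ← hA, ← hB, ← hC]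
    rw [hδ] at hr1
    linear_combination (53 ^ k * 53 ^ k) * hr1
  · apply emb_injective
    have e53 : emb 53 = 53 := map_ofNat emb 53
    have e25 : emb 25 = 25 := map_ofNat emb 25
    have e2 : emb ⟨-52, 3⟩ = ⟨-52, 3⟩ := by rw [emb_apply]; ext <;> simp
    have e3 : emb ⟨5, 5⟩ = ⟨5, 5⟩ := by rw [emb_apply]; ext <;> simp
    rw [map_mul, map_add, map_add, map_mul, map_mul, map_mul, map_mul, map_pow, e53, e25, e2, e3,
      ← hr₂, ← hA, ← hB, ← hC]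
    rw [hδ] at hr2
    linear_combination (53 ^ k * 53 ^ k) * hr2

/-- A matrix of size at most two does not present this module. -/
lemma no_small_presentation {k : ℕ} (hk : k ≤ 2) (A : Matrix (Fin k) (Fin k) Lam)
    (e : Coker A ≃ₗ[Lam] Coker (alexMatrix V1)) : False := by
  classical
  have key : ∀ z : Coker (alexMatrix V1), ∃ c : Fin k → Lam,
      z = ∑ i, c i • e (cls A (Pi.single i 1)) := by
    intro z
    obtain ⟨c, hc⟩ := cls_surjective _ (e.symm z)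
    refine ⟨c, ?_⟩
    have h1 : z = e (cls A c) := by rw [hc, LinearEquiv.apply_symm_apply]
    have h2 : c = ∑ i, c i • (Pi.single i 1 : Fin k → Lam) := by
      ext j
      simp [Finset.sum_apply, Pi.single_apply]
    rw [h1]
    conv_lhs => rw [h2]
    rw [← clsL_apply, map_sum, map_sum]
    refine Finset.sum_congr rfl (fun i _ => ?_)
    rw [map_smul, map_smul, clsL_apply]
  interval_cases k
  · refine not_two_generated 0 0 (fun z => ?_)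
    obtain ⟨c, hc⟩ := key z
    refine ⟨0, 0, ?_⟩
    rw [hc]
    simp
  · refine not_two_generated (e (cls _ (Pi.single 0 1))) 0 (fun z => ?_)
    obtain ⟨c, hc⟩ := key z
    refine ⟨c 0, 0, ?_⟩
    rw [hc]
    simp
  · refine not_two_generated (e (cls _ (Pi.single 0 1)))
      (e (cls _ (Pi.single 1 1))) (fun z => ?_)
    obtain ⟨c, hc⟩ := key z
    refine ⟨c 0, c 1, ?_⟩
    rw [hc, Fin.sum_univ_two]

end Pool.Agent.Lib.MP_9d46ca_gt
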