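import Pool.Agent.Lib.MP_9d46ca_gt.Sequiv

/-!
# Reduction of a Seifert matrix by a sequence of elementary reductions
-/

set_option autoImplicit false
set_option linter.unusedSectionVars false

namespace Pool.Agent.Lib.MP_9d46ca_gt

open Matrix LaurentPolynomial

section

variable {ι κ : Type} [Fintype ι] [Fintype κ] [DecidableEq ι] [DecidableEq κ]

lemma det_alex_ne_zero_of_congr (V : Matrix ι ι ℤ) (P : Matrix ι κ ℤ)
    (Q : Matrix κ ι ℤ) (hPQ : P * Q = 1) (hV' : (alexMatrix (Pᵀ * V * P)).det ≠ 0) :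
    (alexMatrix V).det ≠ 0 := by
  intro h0
  rw [← Matrix.exists_mulVec_eq_zero_iff] at h0
  obtain ⟨v, hv, hv0⟩ := h0
  apply hV'
  rw [← Matrix.exists_mulVec_eq_zero_iff]
  have hPQv : toLam P *ᵥ (toLam Q *ᵥ v) = v := by
    rw [Matrix.mulVec_mulVec, ← toLam_mul, hPQ, toLam_one, Matrix.one_mulVec]
  refine ⟨toLam Q *ᵥ v, fun h => hv ?_, ?_⟩
  · rw [← hPQv, h, Matrix.mulVec_zero]
  · rw [alexMatrix_congr, ← Matrix.mulVec_mulVec, hPQv, ← Matrix.mulVec_mulVec, hv0,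
      Matrix.mulVec_zero]

lemma isUnit_T_smul (a b : ℤ) (h : ((a = 1 ∨ a = -1) ∧ b = 0) ∨ (a = 0 ∧ (b = 1 ∨ b = -1))) :
    IsUnit ((T 1 : Lam) * C a - C b) := by
  have hT : IsUnit (T 1 : Lam) := isUnit_T 1
  rcases h with ⟨rfl | rfl, rfl⟩ | ⟨rfl, rfl | rfl⟩
  · simpa using hT
  · simpa using hT
  · simp
  · simp

/-- Reduction of a Seifert matrix with an isotropic block `z` and a dual block `h` for which the
pairing of `z` with `h` is triangular with units on the diagonal. -/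
theorem isometric_reduce {m : ℕ}
    (V : Matrix (κ ⊕ (Fin m ⊕ Fin m)) (κ ⊕ (Fin m ⊕ Fin m)) ℤ) (M : Matrix κ κ ℤ)
    (hM : (alexMatrix M).det ≠ 0)
    (h0 : ∀ i j, V (Sum.inl i) (Sum.inl j) = M i j)
    (h1 : ∀ i k, V (Sum.inl i) (Sum.inr (Sum.inl k)) = 0)
    (h2 : ∀ i k, V (Sum.inr (Sum.inl k)) (Sum.inl i) = 0)
    (h3 : ∀ k l, V (Sum.inr (Sum.inl k)) (Sum.inr (Sum.inl l)) = 0)
    (h4 : ∀ k l, k < l → V (Sum.inr (Sum.inl k)) (Sum.inr (Sum.inr l)) = 0)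
    (h5 : ∀ k l, k < l → V (Sum.inr (Sum.inr l)) (Sum.inr (Sum.inl k)) = 0)
    (h6 : ∀ k, ((V (Sum.inr (Sum.inl k)) (Sum.inr (Sum.inr k)) = 1 ∨
        V (Sum.inr (Sum.inl k)) (Sum.inr (Sum.inr k)) = -1) ∧
        V (Sum.inr (Sum.inr k)) (Sum.inr (Sum.inl k)) = 0) ∨
      (V (Sum.inr (Sum.inl k)) (Sum.inr (Sum.inr k)) = 0 ∧
        (V (Sum.inr (Sum.inr k)) (Sum.inr (Sum.inl k)) = 1 ∨
          V (Sum.inr (Sum.inr k)) (Sum.inr (Sum.inl k)) = -1))) :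
    (alexMatrix V).det ≠ 0 ∧
      Isometric (alexMatrix M) (blanchMatrix M) (alexMatrix V) (blanchMatrix V) := by
  let X : Matrix κ (Fin m) ℤ := Matrix.of fun i k => V (Sum.inl i) (Sum.inr (Sum.inr k))
  let Y : Matrix (Fin m) κ ℤ := Matrix.of fun k i => V (Sum.inr (Sum.inr k)) (Sum.inl i)
  let U : Matrix (Fin m) (Fin m) ℤ :=
    Matrix.of fun k l => V (Sum.inr (Sum.inl k)) (Sum.inr (Sum.inr l))
  let U' : Matrix (Fin m) (Fin m) ℤ :=
    Matrix.of fun k l => V (Sum.inr (Sum.inr k)) (Sum.inr (Sum.inl l))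
  let W : Matrix (Fin m) (Fin m) ℤ :=
    Matrix.of fun k l => V (Sum.inr (Sum.inr k)) (Sum.inr (Sum.inr l))
  have hVeq : V = Matrix.fromBlocks M (Matrix.fromCols 0 X) (Matrix.fromRows 0 Y)
      (Matrix.fromBlocks 0 U U' W) := by
    ext i j
    rcases i with i | i | i <;> rcases j with j | j | j <;>
      simp [X, Y, U, U', W, h0, h1, h2, h3]
  set u : Matrix (Fin m) (Fin m) Lam := (T 1 : Lam) • toLam U - toLam U'ᵀ with hu
  set u' : Matrix (Fin m) (Fin m) Lam := (T 1 : Lam) • toLam U' - toLam Uᵀ with hu'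
  have hue : ∀ k l, u k l = T 1 * C (U k l) - C (U' l k) := by
    intro k l
    simp [hu, toLam]
  have hue' : ∀ k l, u' k l = T 1 * C (U' k l) - C (U l k) := by
    intro k l
    simp [hu', toLam]
  have hdu : IsUnit u.det := by
    rw [Matrix.det_of_isLowerTriangular u (by
      intro k l hkl
      have hkl' : k < l := hkl
      rw [hue]
      simp [U, U', h4 k l hkl', h5 k l hkl'])]
    rw [IsUnit.prod_univ_iff]
    intro k
    rw [hue]
    exact isUnit_T_smul _ _ (h6 k)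
  have hdu' : IsUnit u'.det := by
    rw [Matrix.det_of_isUpperTriangular (M := u') (by
      intro k l hkl
      have hkl' : l < k := hkl
      rw [hue']
      simp [U, U', h4 l k hkl', h5 l k hkl'])]
    rw [IsUnit.prod_univ_iff]
    intro k
    rw [hue']
    apply isUnit_T_smul
    rcases h6 k with ⟨ha, hb⟩ | ⟨ha, hb⟩
    · exact Or.inr ⟨hb, ha⟩
    · exact Or.inl ⟨hb, ha⟩
  have huv : u * u⁻¹ = 1 := Matrix.mul_nonsing_inv _ hdu
  have hvu : u⁻¹ * u = 1 := Matrix.nonsing_inv_mul _ hdu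
  have huv' : u' * u'⁻¹ = 1 := Matrix.mul_nonsing_inv _ hdu'
  have hvu' : u'⁻¹ * u' = 1 := Matrix.nonsing_inv_mul _ hdu'
  set v := u⁻¹ with hv
  set v' := u'⁻¹ with hv'
  set E : Matrix (Fin m ⊕ Fin m) (Fin m ⊕ Fin m) ℤ := Matrix.fromBlocks 0 U U' W with hE
  have hAE : alexMatrix E = Matrix.fromBlocks 0 u u' (alexMatrix W) := by
    rw [hE, alexMatrix_fromBlocks]
    congr 1
    ext i j
    simp [alexMatrix]
  set f : Matrix (Fin m ⊕ Fin m) (Fin m ⊕ Fin m) Lam :=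
    Matrix.fromBlocks (-(v' * alexMatrix W * v)) v' v 0 with hf
  have hef : alexMatrix E * f = 1 := by
    rw [hAE, hf, Matrix.fromBlocks_multiply, ← Matrix.fromBlocks_one]
    congr 1
    · rw [Matrix.zero_mul, zero_add, huv]
    · rw [Matrix.zero_mul, Matrix.mul_zero, add_zero]
    · rw [Matrix.mul_neg, ← Matrix.mul_assoc, ← Matrix.mul_assoc, huv', Matrix.one_mul,
        neg_add_cancel]
    · rw [huv', Matrix.mul_zero, add_zero]
  have hfe : f * alexMatrix E = 1 := by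
    rw [hAE, hf, Matrix.fromBlocks_multiply, ← Matrix.fromBlocks_one]
    congr 1
    · rw [Matrix.mul_zero, zero_add, hvu']
    · rw [Matrix.neg_mul, Matrix.mul_assoc _ v u, hvu, Matrix.mul_one, neg_add_cancel]
    · rw [Matrix.mul_zero, Matrix.zero_mul, add_zero]
    · rw [hvu, Matrix.zero_mul, add_zero]
  have hb : (T 1 : Lam) • toLam (Matrix.fromCols (0 : Matrix κ (Fin m) ℤ) X) -
      toLam (Matrix.fromRows (0 : Matrix (Fin m) κ ℤ) Y)ᵀ =
      Matrix.fromCols 0 ((T 1 : Lam) • toLam X - toLam Yᵀ) := by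
    ext i j
    rcases j with j | j <;> simp [toLam]
  have hc : (T 1 : Lam) • toLam (Matrix.fromRows (0 : Matrix (Fin m) κ ℤ) Y) -
      toLam (Matrix.fromCols (0 : Matrix κ (Fin m) ℤ) X)ᵀ =
      Matrix.fromRows 0 ((T 1 : Lam) • toLam Y - toLam Xᵀ) := by
    ext i j
    rcases i with i | i <;> simp [toLam]
  have hs : ((T 1 : Lam) • toLam (Matrix.fromCols (0 : Matrix κ (Fin m) ℤ) X) -
      toLam (Matrix.fromRows (0 : Matrix (Fin m) κ ℤ) Y)ᵀ) * f *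
      ((T 1 : Lam) • toLam (Matrix.fromRows (0 : Matrix (Fin m) κ ℤ) Y) -
      toLam (Matrix.fromCols (0 : Matrix κ (Fin m) ℤ) X)ᵀ) = 0 := by
    rw [hb, hc, hf, Matrix.fromCols_mul_fromBlocks, Matrix.fromCols_mul_fromRows]
    simp only [Matrix.zero_mul, Matrix.mul_zero, add_zero]
  have hdet : (alexMatrix V).det ≠ 0 := by
    rw [hVeq, alexMatrix_fromBlocks]
    have : Invertible (alexMatrix E) := ⟨f, hfe, hef⟩
    rw [Matrix.det_fromBlocks₂₂]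
    have hinv : ⅟ (alexMatrix E) = f := invOf_eq_right_inv hef
    rw [hinv, hs, sub_zero]
    exact mul_ne_zero (Matrix.isUnit_det_of_right_inverse hef).ne_zero hM
  refine ⟨hdet, ?_⟩
  rw [hVeq] at hdet ⊢
  exact isometric_schur M _ _ E f hef hfe hs hM hdet

/-- The invariant `n` of a Seifert matrix which is congruent to a reducible one. -/
theorem nInv_reduce {m : ℕ} (V : Matrix ι ι ℤ) (P : Matrix ι (κ ⊕ (Fin m ⊕ Fin m)) ℤ)
    (Q : Matrix (κ ⊕ (Fin m ⊕ Fin m)) ι ℤ) (M : Matrix κ κ ℤ)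
    (hPQ : P * Q = 1) (hQP : Q * P = 1)
    (hM : (alexMatrix M).det ≠ 0)
    (h0 : ∀ i j, (Pᵀ * V * P) (Sum.inl i) (Sum.inl j) = M i j)
    (h1 : ∀ i k, (Pᵀ * V * P) (Sum.inl i) (Sum.inr (Sum.inl k)) = 0)
    (h2 : ∀ i k, (Pᵀ * V * P) (Sum.inr (Sum.inl k)) (Sum.inl i) = 0)
    (h3 : ∀ k l, (Pᵀ * V * P) (Sum.inr (Sum.inl k)) (Sum.inr (Sum.inl l)) = 0)
    (h4 : ∀ k l, k < l → (Pᵀ * V * P) (Sum.inr (Sum.inl k)) (Sum.inr (Sum.inr l)) = 0)
    (h5 : ∀ k l, k < l → (Pᵀ * V * P) (Sum.inr (Sum.inr l)) (Sum.inr (Sum.inl k)) = 0)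
    (h6 : ∀ k, (((Pᵀ * V * P) (Sum.inr (Sum.inl k)) (Sum.inr (Sum.inr k)) = 1 ∨
        (Pᵀ * V * P) (Sum.inr (Sum.inl k)) (Sum.inr (Sum.inr k)) = -1) ∧
        (Pᵀ * V * P) (Sum.inr (Sum.inr k)) (Sum.inr (Sum.inl k)) = 0) ∨
      ((Pᵀ * V * P) (Sum.inr (Sum.inl k)) (Sum.inr (Sum.inr k)) = 0 ∧
        ((Pᵀ * V * P) (Sum.inr (Sum.inr k)) (Sum.inr (Sum.inl k)) = 1 ∨
          (Pᵀ * V * P) (Sum.inr (Sum.inr k)) (Sum.inr (Sum.inl k)) = -1))) :
    nInv V = nInv M := by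
  obtain ⟨hd, hiso⟩ := isometric_reduce (Pᵀ * V * P) M hM h0 h1 h2 h3 h4 h5 h6
  have hV := det_alex_ne_zero_of_congr V P Q hPQ hd
  exact nInv_eq_of_isometric (hiso.trans' (isometric_congr V P Q hPQ hQP hV hd))

end

end Pool.Agent.Lib.MP_9d46ca_gt
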