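import Pool.Agent.Lib.MP_9d46ca_gt.Upper

/-!
# S-equivalent Seifert matrices have isometric Blanchfield pairings
-/

set_option autoImplicit false
set_option linter.unusedSectionVars false

namespace Pool.Agent.Lib.MP_9d46ca_gt

open Matrix LaurentPolynomial

section

variable {ι κ μ : Type} [Fintype ι] [Fintype κ] [Fintype μ]

/-- A criterion for the isometry of the Blanchfield pairings of two Seifert matrices. -/
theorem isometric_alex [DecidableEq ι] [DecidableEq κ] {M : Matrix κ κ ℤ}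
    {V : Matrix ι ι ℤ} (hM : (alexMatrix M).det ≠ 0) (hV : (alexMatrix V).det ≠ 0)
    (F : Matrix ι κ Lam) (G : Matrix κ ι Lam) (C₁ : Matrix ι κ Lam) (C₂ : Matrix κ ι Lam)
    (C₄ : Matrix ι ι Lam)
    (h1 : F * alexMatrix M = alexMatrix V * C₁) (h2 : G * alexMatrix V = alexMatrix M * C₂)
    (h3 : G * F = 1) (h4 : F * G = 1 + alexMatrix V * C₄)
    (h5 : conjT F * C₁ = 1) :
    Isometric (alexMatrix M) (blanchMatrix M) (alexMatrix V) (blanchMatrix V) := by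
  set P := alexMatrix V with hP
  set A := alexMatrix M with hA
  have m1 : LinearMap.range A.mulVecLin ≤ (LinearMap.range P.mulVecLin).comap F.mulVecLin := by
    rintro _ ⟨x, rfl⟩
    refine ⟨C₁ *ᵥ x, ?_⟩
    simp only [Matrix.mulVecLin_apply, Matrix.mulVec_mulVec]
    rw [h1]
  have m2 : LinearMap.range P.mulVecLin ≤ (LinearMap.range A.mulVecLin).comap G.mulVecLin := by
    rintro _ ⟨x, rfl⟩
    refine ⟨C₂ *ᵥ x, ?_⟩
    simp only [Matrix.mulVecLin_apply, Matrix.mulVec_mulVec]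
    rw [h2]
  let f : Coker A →ₗ[Lam] Coker P :=
    Submodule.mapQ (LinearMap.range A.mulVecLin) (LinearMap.range P.mulVecLin) F.mulVecLin m1
  let g : Coker P →ₗ[Lam] Coker A :=
    Submodule.mapQ (LinearMap.range P.mulVecLin) (LinearMap.range A.mulVecLin) G.mulVecLin m2
  have hf : ∀ a, f (cls A a) = cls P (F *ᵥ a) := fun a => rfl
  have hg : ∀ a, g (cls P a) = cls A (G *ᵥ a) := fun a => rfl
  have hfg : ∀ z, f (g z) = z := by
    intro z
    obtain ⟨a, rfl⟩ := cls_surjective _ z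
    rw [hg, hf, cls_eq_iff, Matrix.mulVec_mulVec, h4]
    refine ⟨C₄ *ᵥ a, ?_⟩
    rw [Matrix.add_mulVec, Matrix.one_mulVec, Matrix.mulVecLin_apply, Matrix.mulVec_mulVec]
    abel
  have hgf : ∀ z, g (f z) = z := by
    intro z
    obtain ⟨a, rfl⟩ := cls_surjective _ z
    rw [hf, hg, Matrix.mulVec_mulVec, h3, Matrix.one_mulVec]
  refine ⟨LinearEquiv.ofLinearMap f g (LinearMap.ext hfg) (LinearMap.ext hgf), ?_⟩
  intro a b c d hc hd
  have hc' : cls P (F *ᵥ a) = cls P c := hc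
  have hd' : cls P (F *ᵥ b) = cls P d := hd
  rw [eq_comm, cls_eq_iff] at hc' hd'
  obtain ⟨x, hx⟩ := hc'
  obtain ⟨y, hy⟩ := hd'
  have hc2 : c = F *ᵥ a + P *ᵥ x := by
    rw [← Matrix.mulVecLin_apply P x, hx]; abel
  have hd2 : d = F *ᵥ b + P *ᵥ y := by
    rw [← Matrix.mulVecLin_apply P y, hy]; abel
  have uA := isUnit_det_toOm hM
  have uP := isUnit_det_toOm hV
  have hPF : (toOm P)⁻¹ * toOm F = toOm C₁ * (toOm A)⁻¹ := by
    have e1 : toOm F * toOm A = toOm P * toOm C₁ := by rw [← toOm_mul, h1, toOm_mul]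
    calc (toOm P)⁻¹ * toOm F = (toOm P)⁻¹ * (toOm F * toOm A) * (toOm A)⁻¹ := by
          rw [Matrix.mul_assoc, Matrix.mul_assoc, Matrix.mul_nonsing_inv _ uA, Matrix.mul_one]
      _ = (toOm P)⁻¹ * toOm P * (toOm C₁ * (toOm A)⁻¹) := by
          rw [e1]; simp only [Matrix.mul_assoc]
      _ = toOm C₁ * (toOm A)⁻¹ := by rw [Matrix.nonsing_inv_mul _ uP, Matrix.one_mul]
  set t1 : Om := inc (1 - T 1) with ht1
  have hbP : blanchMatrix V = t1 • (toOm P)⁻¹ := rfl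
  have hbA : blanchMatrix M = t1 • (toOm A)⁻¹ := rfl
  -- the right-hand vector
  have hr : blanchMatrix V *ᵥ ov d =
      t1 • ((toOm C₁ * (toOm A)⁻¹) *ᵥ ov b) + t1 • ov y := by
    rw [hbP, hd2, ov_add, ov_mulVec, ov_mulVec, Matrix.smul_mulVec,
      Matrix.mulVec_add, Matrix.mulVec_mulVec, Matrix.mulVec_mulVec, hPF,
      Matrix.nonsing_inv_mul _ uP, Matrix.one_mulVec, smul_add]
  have hcj : ov (cj c) = ov (cj a) ᵥ* toOm (conjT F) +
      (inc (-T (-1))) • (ov (cj x) ᵥ* toOm P) := by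
    rw [hc2, cj_add, cj_mulVec, cj_mulVec, conjT_alexMatrix, ov_add, ov_vecMul, ov_vecMul,
      toOm_smul, Matrix.vecMul_smul]
  have hP2 : (toOm P) *ᵥ (blanchMatrix V *ᵥ ov d) = t1 • ov d := by
    rw [hbP, Matrix.smul_mulVec, Matrix.mulVec_smul, Matrix.mulVec_mulVec,
      Matrix.mul_nonsing_inv _ uP, Matrix.one_mulVec]
  have h5' : toOm (conjT F) * toOm C₁ = 1 := by
    rw [← toOm_mul, h5, toOm_one]
  have main : ov (cj c) ⬝ᵥ (blanchMatrix V *ᵥ ov d) =
      ov (cj a) ⬝ᵥ (blanchMatrix M *ᵥ ov b) + inc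
        ((1 - T 1) * ((cj a ᵥ* conjT F) ⬝ᵥ y) +
          (-T (-1)) * ((1 - T 1) * (cj x ⬝ᵥ d))) := by
    rw [hcj, add_dotProduct, smul_dotProduct, ← Matrix.dotProduct_mulVec, ← Matrix.dotProduct_mulVec,
      hP2, hr, Matrix.mulVec_add, dotProduct_add, Matrix.mulVec_smul, Matrix.mulVec_smul,
      Matrix.mulVec_mulVec, ← Matrix.mul_assoc, h5', Matrix.one_mul, hbA, Matrix.smul_mulVec]
    simp only [map_add, map_mul, ← ov_dot, ov_vecMul, dotProduct_smul, smul_eq_mul,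
      ← ht1, Matrix.dotProduct_mulVec]
    ring
  rw [form_eq, form_eq, main]
  refine ⟨-((1 - T 1) * ((cj a ᵥ* conjT F) ⬝ᵥ y) +
          (-T (-1)) * ((1 - T 1) * (cj x ⬝ᵥ d))), ?_⟩
  rw [map_neg]
  ring

lemma Isometric.trans' {P₁ : Matrix ι ι Lam} {B₁ : Matrix ι ι Om} {P₂ : Matrix κ κ Lam}
    {B₂ : Matrix κ κ Om} {P₃ : Matrix μ μ Lam} {B₃ : Matrix μ μ Om}
    (h : Isometric P₁ B₁ P₂ B₂) (h' : Isometric P₂ B₂ P₃ B₃) : Isometric P₁ B₁ P₃ B₃ := by
  obtain ⟨e, he⟩ := h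
  obtain ⟨e', he'⟩ := h'
  refine ⟨e.trans e', fun a b c d hc hd => ?_⟩
  obtain ⟨c', hc'⟩ := cls_surjective P₂ (e (cls P₁ a))
  obtain ⟨d', hd'⟩ := cls_surjective P₂ (e (cls P₁ b))
  obtain ⟨p, hp⟩ := he a b c' d' hc'.symm hd'.symm
  have hc2 : e' (cls P₂ c') = cls P₃ c := by rw [hc']; exact hc
  have hd2 : e' (cls P₂ d') = cls P₃ d := by rw [hd']; exact hd
  obtain ⟨q, hq⟩ := he' c' d' c d hc2 hd2
  exact ⟨p + q, by rw [map_add, ← hp, ← hq]; ring⟩

lemma Isometric.symm' {P₁ : Matrix ι ι Lam} {B₁ : Matrix ι ι Om} {P₂ : Matrix κ κ Lam}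
    {B₂ : Matrix κ κ Om} (h : Isometric P₁ B₁ P₂ B₂) : Isometric P₂ B₂ P₁ B₁ := by
  obtain ⟨e, he⟩ := h
  refine ⟨e.symm, fun a b c d hc hd => ?_⟩
  have hc' : e (cls P₁ c) = cls P₂ a := by rw [← hc, LinearEquiv.apply_symm_apply]
  have hd' : e (cls P₁ d) = cls P₂ b := by rw [← hd, LinearEquiv.apply_symm_apply]
  obtain ⟨p, hp⟩ := he c d a b hc' hd'
  exact ⟨-p, by rw [map_neg, ← hp]; ring⟩

/-- The invariant `n` only depends on the isometry class of the Blanchfield pairing. -/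
theorem nInv_eq_of_isometric [DecidableEq ι] [DecidableEq κ] {M : Matrix κ κ ℤ}
    {V : Matrix ι ι ℤ}
    (h : Isometric (alexMatrix M) (blanchMatrix M) (alexMatrix V) (blanchMatrix V)) :
    nInv V = nInv M := by
  unfold nInv
  congr 1
  ext k
  constructor
  · rintro ⟨A, h1, h2, h3, h4⟩
    exact ⟨A, h1, h2, h3.trans' h.symm', h4⟩
  · rintro ⟨A, h1, h2, h3, h4⟩
    exact ⟨A, h1, h2, h3.trans' h, h4⟩

/-! ### Congruence -/

/-- An integer matrix viewed over `Λ`. -/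
noncomputable def toLam {ι κ : Type} (A : Matrix ι κ ℤ) : Matrix ι κ Lam := A.map (fun n => (C n : Lam))

lemma toLam_mul (A : Matrix ι κ ℤ) (B : Matrix κ μ ℤ) : toLam (A * B) = toLam A * toLam B :=
  Matrix.map_mul (f := (C : ℤ →+* Lam))

lemma toLam_one [DecidableEq ι] : toLam (1 : Matrix ι ι ℤ) = 1 := by
  ext i j
  simp only [toLam, map_apply, Matrix.one_apply]
  split_ifs <;> simp

lemma toLam_transpose {ι κ : Type} (A : Matrix ι κ ℤ) : toLam Aᵀ = (toLam A)ᵀ := rfl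

lemma conjT_toLam {ι κ : Type} (A : Matrix ι κ ℤ) : conjT (toLam A) = toLam Aᵀ := by
  ext i j
  simp [conjT, toLam]

lemma alexMatrix_eq {ι : Type} (V : Matrix ι ι ℤ) :
    alexMatrix V = (T 1 : Lam) • toLam V - toLam Vᵀ := rfl

lemma alexMatrix_congr (V : Matrix ι ι ℤ) (P : Matrix ι κ ℤ) :
    alexMatrix (Pᵀ * V * P) = toLam Pᵀ * alexMatrix V * toLam P := by
  rw [alexMatrix_eq, alexMatrix_eq, Matrix.transpose_mul, Matrix.transpose_mul,
    Matrix.transpose_transpose, toLam_mul, toLam_mul, toLam_mul, toLam_mul, Matrix.mul_sub,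
    Matrix.sub_mul, Matrix.mul_smul, Matrix.smul_mul, Matrix.mul_assoc (toLam Pᵀ) (toLam Vᵀ)]

theorem isometric_congr [DecidableEq ι] [DecidableEq κ] (V : Matrix ι ι ℤ) (P : Matrix ι κ ℤ)
    (Q : Matrix κ ι ℤ) (hPQ : P * Q = 1) (hQP : Q * P = 1) (hV : (alexMatrix V).det ≠ 0)
    (hV' : (alexMatrix (Pᵀ * V * P)).det ≠ 0) :
    Isometric (alexMatrix (Pᵀ * V * P)) (blanchMatrix (Pᵀ * V * P))
      (alexMatrix V) (blanchMatrix V) := by
  refine isometric_alex hV' hV (toLam Qᵀ) (toLam Pᵀ) (toLam P) (toLam Q) 0 ?_ ?_ ?_ ?_ ?_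
  · rw [alexMatrix_congr, ← Matrix.mul_assoc, ← Matrix.mul_assoc, ← toLam_mul,
      ← Matrix.transpose_mul, hPQ, Matrix.transpose_one, toLam_one, Matrix.one_mul]
  · rw [alexMatrix_congr, Matrix.mul_assoc _ (toLam P), ← toLam_mul, hPQ, toLam_one,
      Matrix.mul_one]
  · rw [← toLam_mul, ← Matrix.transpose_mul, hQP, Matrix.transpose_one, toLam_one]
  · rw [← toLam_mul, ← Matrix.transpose_mul, hPQ, Matrix.transpose_one, toLam_one, Matrix.mul_zero,
      add_zero]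
  · rw [conjT_toLam, Matrix.transpose_transpose, ← toLam_mul, hQP, toLam_one]

/-! ### Enlargements -/

lemma alexMatrix_fromBlocks {ι κ : Type} (A : Matrix ι ι ℤ) (B : Matrix ι κ ℤ) (C' : Matrix κ ι ℤ)
    (D : Matrix κ κ ℤ) :
    alexMatrix (Matrix.fromBlocks A B C' D) = Matrix.fromBlocks (alexMatrix A)
      ((T 1 : Lam) • toLam B - toLam C'ᵀ) ((T 1 : Lam) • toLam C' - toLam Bᵀ) (alexMatrix D) := by
  ext i j
  rcases i with i | i <;> rcases j with j | j <;>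
    simp [alexMatrix, toLam, Matrix.fromBlocks]

/-- Removal of a block whose Alexander matrix is invertible. -/
theorem isometric_schur [DecidableEq ι] [DecidableEq κ] (M : Matrix κ κ ℤ) (X : Matrix κ ι ℤ)
    (Y : Matrix ι κ ℤ) (E : Matrix ι ι ℤ) (f : Matrix ι ι Lam) (hef : alexMatrix E * f = 1)
    (hfe : f * alexMatrix E = 1)
    (hs : ((T 1 : Lam) • toLam X - toLam Yᵀ) * f * ((T 1 : Lam) • toLam Y - toLam Xᵀ) = 0)
    (hM : (alexMatrix M).det ≠ 0) (hV : (alexMatrix (Matrix.fromBlocks M X Y E)).det ≠ 0) :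
    Isometric (alexMatrix M) (blanchMatrix M) (alexMatrix (Matrix.fromBlocks M X Y E))
      (blanchMatrix (Matrix.fromBlocks M X Y E)) := by
  set b : Matrix κ ι Lam := (T 1 : Lam) • toLam X - toLam Yᵀ with hb
  set c : Matrix ι κ Lam := (T 1 : Lam) • toLam Y - toLam Xᵀ with hc
  have hA : alexMatrix (Matrix.fromBlocks M X Y E) =
      Matrix.fromBlocks (alexMatrix M) b c (alexMatrix E) := alexMatrix_fromBlocks M X Y E
  refine isometric_alex hM hV (Matrix.fromRows 1 0) (Matrix.fromCols 1 (-(b * f)))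
    (Matrix.fromRows 1 (-(f * c))) (Matrix.fromCols 1 0) (Matrix.fromBlocks 0 0 0 (-f)) ?_ ?_ ?_ ?_ ?_
  · rw [hA, Matrix.fromRows_mul, Matrix.fromBlocks_mul_fromRows, Matrix.one_mul, Matrix.zero_mul,
      Matrix.mul_one, Matrix.mul_one, Matrix.mul_neg, Matrix.mul_neg, ← Matrix.mul_assoc, hs,
      ← Matrix.mul_assoc, hef, Matrix.one_mul, neg_zero, add_zero, add_neg_cancel]
  · rw [hA, Matrix.fromCols_mul_fromBlocks, Matrix.mul_fromCols, Matrix.one_mul, Matrix.one_mul,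
      Matrix.mul_one, Matrix.mul_zero, Matrix.neg_mul, Matrix.neg_mul, hs, Matrix.mul_assoc b f,
      hfe, Matrix.mul_one, neg_zero, add_zero, add_neg_cancel]
  · rw [Matrix.fromCols_mul_fromRows, Matrix.mul_one, Matrix.mul_zero, add_zero]
  · rw [hA, Matrix.fromRows_mul_fromCols, Matrix.fromBlocks_multiply, ← Matrix.fromBlocks_one,
      Matrix.fromBlocks_add]
    simp only [Matrix.mul_one, Matrix.zero_mul, Matrix.mul_zero, add_zero, Matrix.one_mul,
      Matrix.mul_neg, hef, zero_add, add_neg_cancel, neg_zero]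
  · have : conjT (Matrix.fromRows (1 : Matrix κ κ Lam) (0 : Matrix ι κ Lam)) =
        Matrix.fromCols 1 0 := by
      ext i j
      rcases j with j | j
      · simp [conjT, Matrix.one_apply, eq_comm]
      · simp [conjT]
    rw [this, Matrix.fromCols_mul_fromRows, Matrix.mul_one, Matrix.zero_mul, add_zero]

end

end Pool.Agent.Lib.MP_9d46ca_gt
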