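import Pool.Agent.Lib.MP_9d46ca_gt.Braid

/-!
# Computation of the invariant `n` of a closed braid from a table
-/

set_option autoImplicit false

namespace Pool.Agent.Lib.MP_9d46ca_gt

open Matrix

/-- Value of a sparse vector. -/
def spar (l : List (ℕ × ℤ)) (n : ℕ) : ℤ := (l.map fun p => if p.1 = n then p.2 else 0).sum

lemma sum_spar {k : ℕ} (l : List (ℕ × ℤ)) (hl : ∀ p ∈ l, p.1 < k) (g : Fin k → ℤ) :
    ∑ x : Fin k, spar l x * g x =
      (l.map fun p => p.2 * (if h : p.1 < k then g ⟨p.1, h⟩ else 0)).sum := by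
  induction l with
  | nil => simp [spar]
  | cons p l ih =>
    have hp : p.1 < k := hl p (by simp)
    have h1 : ∀ x : Fin k, spar (p :: l) x * g x =
        (if (⟨p.1, hp⟩ : Fin k) = x then p.2 * g x else 0) + spar l x * g x := by
      intro x
      have h2 : spar (p :: l) x = (if p.1 = (x : ℕ) then p.2 else 0) + spar l x := by
        simp [spar]
      rw [h2, add_mul]
      congr 1
      by_cases hx : p.1 = (x : ℕ)
      · have hx' : (⟨p.1, hp⟩ : Fin k) = x := Fin.ext hx
        rw [if_pos hx, if_pos hx']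
      · have hx' : ¬ (⟨p.1, hp⟩ : Fin k) = x := fun h => hx (by rw [← h])
        rw [if_neg hx, if_neg hx', zero_mul]
    rw [Finset.sum_congr rfl fun x _ => h1 x, Finset.sum_add_distrib,
      ih (fun q hq => hl q (List.mem_cons_of_mem _ hq))]
    simp [hp]

/-- Entry `(a, b)` of the Seifert matrix with respect to a table of loops. -/
def ent (w : BraidWord) (lt : List (ℕ × ℕ)) (a b : ℕ) : ℤ :=
  lkPlus w (lt.getD a (0, 0)) (lt.getD b (0, 0))

/-- The Seifert form of two sparse vectors. -/
def bil (w : BraidWord) (lt : List (ℕ × ℕ)) (l l' : List (ℕ × ℤ)) : ℤ :=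
  (l.map fun p => p.2 * (l'.map fun q => q.2 * ent w lt p.1 q.1).sum).sum

/-- Product of two sparse vectors. -/
def dot (l l' : List (ℕ × ℤ)) : ℤ := (l.map fun p => p.2 * spar l' p.1).sum

/-- All entries of the table are loops. -/
def chkLoops (w : BraidWord) (lt : List (ℕ × ℕ)) (k : ℕ) : Bool :=
  (List.range k).all fun a =>
    decide (IsLoop w (lt.getD a (0, 0)).1 (lt.getD a (0, 0)).2) && (lt.idxOf (lt.getD a (0, 0)) == a)

/-- All loops are entries of the table. -/
def chkComplete (w : BraidWord) (lt : List (ℕ × ℕ)) : Bool :=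
  (List.range w.length).all fun p => (List.range w.length).all fun q =>
    !(decide (IsLoop w p q)) || lt.contains (p, q)

/-- The indices of the sparse vectors are in range. -/
def chkRange (pt : List (List (ℕ × ℤ))) (k : ℕ) : Bool :=
  pt.all fun l => l.all fun p => decide (p.1 < k)

/-- The two tables are inverse to one another. -/
def chkInv (pt qt : List (List (ℕ × ℤ))) (k : ℕ) : Bool :=
  (List.range k).all fun i => (List.range k).all fun j =>
    dot (qt.getD i []) (pt.getD j []) == if i = j then 1 else 0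

/-- The block conditions. -/
def chkBlock (w : BraidWord) (lt : List (ℕ × ℕ)) (pt : List (List (ℕ × ℤ))) (m : ℕ) : Bool :=
  (List.range m).all fun k =>
    ((List.range 4).all fun i => bil w lt (pt.getD i []) (pt.getD (4 + k) []) == 0 &&
      (bil w lt (pt.getD (4 + k) []) (pt.getD i []) == 0)) &&
    ((List.range m).all fun l => bil w lt (pt.getD (4 + k) []) (pt.getD (4 + l) []) == 0) &&
    ((List.range m).all fun l => decide (l ≤ k) ||
      ((bil w lt (pt.getD (4 + k) []) (pt.getD (4 + m + l) []) == 0) &&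
        (bil w lt (pt.getD (4 + m + l) []) (pt.getD (4 + k) []) == 0)))

/-- The diagonal conditions. -/
def chkDiag (w : BraidWord) (lt : List (ℕ × ℕ)) (pt : List (List (ℕ × ℤ))) (m : ℕ) : Bool :=
  (List.range m).all fun k =>
    (((bil w lt (pt.getD (4 + k) []) (pt.getD (4 + m + k) []) == 1) ||
      (bil w lt (pt.getD (4 + k) []) (pt.getD (4 + m + k) []) == -1)) &&
      (bil w lt (pt.getD (4 + m + k) []) (pt.getD (4 + k) []) == 0)) ||
    ((bil w lt (pt.getD (4 + k) []) (pt.getD (4 + m + k) []) == 0) &&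
      ((bil w lt (pt.getD (4 + m + k) []) (pt.getD (4 + k) []) == 1) ||
      (bil w lt (pt.getD (4 + m + k) []) (pt.getD (4 + k) []) == -1)))

/-- The number of a basis vector. -/
def num {m : ℕ} : (Fin 2 ⊕ Fin 2) ⊕ (Fin m ⊕ Fin m) → ℕ
  | Sum.inl (Sum.inl i) => i
  | Sum.inl (Sum.inr i) => 2 + i
  | Sum.inr (Sum.inl i) => 4 + i
  | Sum.inr (Sum.inr i) => 4 + m + i

lemma num_lt {m : ℕ} (j : (Fin 2 ⊕ Fin 2) ⊕ (Fin m ⊕ Fin m)) : num j < 4 + m + m := by
  rcases j with (i | i) | (i | i) <;> simp only [num] <;> omega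

lemma num_inj {m : ℕ} {j j' : (Fin 2 ⊕ Fin 2) ⊕ (Fin m ⊕ Fin m)} (h : num j = num j') : j = j' := by
  rcases j with (i | i) | (i | i) <;> rcases j' with (j | j) | (j | j) <;> simp only [num] at h <;>
    first
    | (exfalso; omega)
    | (have : i = j := Fin.ext (by omega)
       rw [this])

section

variable {w : BraidWord} {lt : List (ℕ × ℕ)} {k : ℕ}

lemma isLoop_of_chk (h : chkLoops w lt k = true) {a : ℕ} (ha : a < k) :
    IsLoop w (lt.getD a (0, 0)).1 (lt.getD a (0, 0)).2 := by
  have := List.all_eq_true.1 h a (List.mem_range.2 ha)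
  rw [Bool.and_eq_true] at this
  exact of_decide_eq_true this.1

/-- The loop with a given number. -/
def loopOf (h : chkLoops w lt k = true) (a : Fin k) : Loop w :=
  ⟨(⟨(lt.getD a (0, 0)).1, (isLoop_of_chk h a.2).1.trans (isLoop_of_chk h a.2).2.1⟩,
    ⟨(lt.getD a (0, 0)).2, (isLoop_of_chk h a.2).2.1⟩), isLoop_of_chk h a.2⟩

lemma loopOf_bijective (h : chkLoops w lt k = true) (h' : chkComplete w lt = true)
    (hk : lt.length = k) : Function.Bijective (loopOf h) := by
  constructor
  · intro a b hab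
    have h1 : lt.getD a (0, 0) = lt.getD b (0, 0) := by
      have e1 := congrArg (fun x : Loop w => (x.1.1 : ℕ)) hab
      have e2 := congrArg (fun x : Loop w => (x.1.2 : ℕ)) hab
      exact Prod.ext e1 e2
    have ha := List.all_eq_true.1 h a (List.mem_range.2 a.2)
    have hb := List.all_eq_true.1 h b (List.mem_range.2 b.2)
    rw [Bool.and_eq_true] at ha hb
    have ha' := eq_of_beq ha.2
    have hb' := eq_of_beq hb.2
    rw [h1, hb'] at ha'
    exact Fin.ext ha'.symm
  · rintro ⟨⟨p, q⟩, hpq⟩
    have h1 := List.all_eq_true.1 (List.all_eq_true.1 h' p (List.mem_range.2 p.2)) q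
      (List.mem_range.2 q.2)
    have h2 : decide (IsLoop w p q) = true := decide_eq_true hpq
    rw [h2] at h1
    have h3 : lt.contains ((p : ℕ), (q : ℕ)) = true := by simpa using h1
    have h4 : ((p : ℕ), (q : ℕ)) ∈ lt := by simpa using h3
    obtain ⟨a, ha, hae⟩ := List.getElem_of_mem h4
    have hgd : lt.getD a (0, 0) = ((p : ℕ), (q : ℕ)) := by
      rw [List.getD_eq_getElem _ _ ha, hae]
    refine ⟨⟨a, hk ▸ ha⟩, Subtype.ext (Prod.ext (Fin.ext ?_) (Fin.ext ?_))⟩
    · show (lt.getD a (0, 0)).1 = (p : ℕ)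
      rw [hgd]
    · show (lt.getD a (0, 0)).2 = (q : ℕ)
      rw [hgd]

end

/-- Computation of `n` of a closed braid from a table of loops and a reducing basis. -/
theorem nKnot_of_table (w : BraidWord) (lt : List (ℕ × ℕ)) (pt qt : List (List (ℕ × ℤ))) (m : ℕ)
    (M : Matrix (Fin 2 ⊕ Fin 2) (Fin 2 ⊕ Fin 2) ℤ) (hM : (alexMatrix M).det ≠ 0)
    (hk : lt.length = 4 + m + m) (h1 : chkLoops w lt (4 + m + m) = true)
    (h2 : chkComplete w lt = true) (h3 : chkRange pt (4 + m + m) = true)
    (h4 : chkRange qt (4 + m + m) = true) (h5 : chkInv pt qt (4 + m + m) = true)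
    (h6 : chkBlock w lt pt m = true) (h7 : chkDiag w lt pt m = true)
    (h8 : ∀ i j : Fin 2 ⊕ Fin 2, bil w lt (pt.getD (num (m := m) (Sum.inl i)) [])
      (pt.getD (num (m := m) (Sum.inl j)) []) = M i j) :
    nKnot w = nInv M := by
  classical
  set K := 4 + m + m with hK
  let e : Fin K ≃ Loop w := Equiv.ofBijective (loopOf h1) (loopOf_bijective h1 h2 hk)
  have hV : ∀ a b : Fin K, seifertMatrix w (e a) (e b) = ent w lt a b := fun a b => rfl
  have hpt : ∀ j : ℕ, ∀ p ∈ pt.getD j [], p.1 < K := by
    intro j p hp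
    by_cases hj : j < pt.length
    · rw [List.getD_eq_getElem _ _ hj] at hp
      have := List.all_eq_true.1 (List.all_eq_true.1 h3 _ (List.getElem_mem hj)) p hp
      exact of_decide_eq_true this
    · rw [List.getD_eq_default _ _ (by omega)] at hp
      simp at hp
  have hqt : ∀ j : ℕ, ∀ p ∈ qt.getD j [], p.1 < K := by
    intro j p hp
    by_cases hj : j < qt.length
    · rw [List.getD_eq_getElem _ _ hj] at hp
      have := List.all_eq_true.1 (List.all_eq_true.1 h4 _ (List.getElem_mem hj)) p hp
      exact of_decide_eq_true this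
    · rw [List.getD_eq_default _ _ (by omega)] at hp
      simp at hp
  let P : Matrix (Loop w) ((Fin 2 ⊕ Fin 2) ⊕ (Fin m ⊕ Fin m)) ℤ :=
    fun x j => spar (pt.getD (num j) []) (e.symm x)
  let Q : Matrix ((Fin 2 ⊕ Fin 2) ⊕ (Fin m ⊕ Fin m)) (Loop w) ℤ :=
    fun j x => spar (qt.getD (num j) []) (e.symm x)
  have hQP : Q * P = 1 := by
    ext i j
    have e1 : (Q * P) i j = ∑ a : Fin K, spar (qt.getD (num i) []) a * spar (pt.getD (num j) []) a := by
      rw [Matrix.mul_apply, ← Equiv.sum_comp e]
      exact Finset.sum_congr rfl fun a _ => by simp [P, Q]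
    rw [e1, sum_spar (qt.getD (num i) []) (hqt _) (fun a => spar (pt.getD (num j) []) a)]
    have e2 : ((qt.getD (num i) []).map fun p => p.2 *
        (if h : p.1 < K then spar (pt.getD (num j) []) ((⟨p.1, h⟩ : Fin K) : ℕ) else 0)) =
        ((qt.getD (num i) []).map fun p => p.2 * spar (pt.getD (num j) []) p.1) := by
      apply List.map_congr_left
      intro p hp
      rw [dif_pos (hqt _ p hp)]
    rw [e2]
    have e3 := eq_of_beq (List.all_eq_true.1 (List.all_eq_true.1 h5 (num i)
      (List.mem_range.2 (num_lt i))) (num j) (List.mem_range.2 (num_lt j)))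
    change dot (qt.getD (num i) []) (pt.getD (num j) []) = _
    rw [e3, Matrix.one_apply]
    by_cases hij : i = j
    · subst hij
      simp
    · rw [if_neg hij, if_neg fun h => hij (num_inj h)]
  have hcard : Fintype.card (Loop w) =
      Fintype.card ((Fin 2 ⊕ Fin 2) ⊕ (Fin m ⊕ Fin m)) := by
    rw [← Fintype.card_congr e]
    simp [hK]
    omega
  have hPQ : P * Q = 1 :=
    (Matrix.mul_eq_one_comm_of_equiv (Fintype.equivOfCardEq hcard)).2 hQP
  have hent : ∀ i j, (Pᵀ * seifertMatrix w * P) i j =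
      bil w lt (pt.getD (num i) []) (pt.getD (num j) []) := by
    intro i j
    have e1 : (Pᵀ * seifertMatrix w * P) i j = ∑ a : Fin K, spar (pt.getD (num i) []) a *
        ∑ b : Fin K, spar (pt.getD (num j) []) b * ent w lt a b := by
      rw [Matrix.mul_assoc, Matrix.mul_apply, ← Equiv.sum_comp e]
      refine Finset.sum_congr rfl fun a _ => ?_
      rw [Matrix.transpose_apply, Matrix.mul_apply, ← Equiv.sum_comp e]
      have : P (e a) i = spar (pt.getD (num i) []) a := by simp [P]
      rw [this]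
      congr 1
      refine Finset.sum_congr rfl fun b _ => ?_
      have : P (e b) j = spar (pt.getD (num j) []) b := by simp [P]
      rw [this, hV, mul_comm]
    rw [e1, sum_spar _ (hpt _) (fun a => ∑ b : Fin K, spar (pt.getD (num j) []) b * ent w lt a b)]
    unfold bil
    congr 1
    apply List.map_congr_left
    intro p hp
    rw [dif_pos (hpt _ p hp)]
    congr 1
    rw [sum_spar _ (hpt _) (fun b => ent w lt p.1 b)]
    congr 1
    apply List.map_congr_left
    intro q hq
    rw [dif_pos (hpt _ q hq)]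
  have hb : ∀ k < m, _ := fun k hk => List.all_eq_true.1 h6 k (List.mem_range.2 hk)
  simp only [Bool.and_eq_true, Bool.or_eq_true, List.all_eq_true, List.mem_range, beq_iff_eq,
    decide_eq_true_eq] at hb
  have hd : ∀ k < m, _ := fun k hk => List.all_eq_true.1 h7 k (List.mem_range.2 hk)
  simp only [Bool.and_eq_true, Bool.or_eq_true, beq_iff_eq] at hd
  refine nInv_reduce (m := m) (seifertMatrix w) P Q M hPQ hQP hM ?_ ?_ ?_ ?_ ?_ ?_ ?_
  · intro i j
    rw [hent]
    exact h8 i j
  · intro i k
    rw [hent]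
    exact ((hb k k.2).1.1 (num (m := m) (Sum.inl i)) (by rcases i with i | i <;> simp only [num] <;> omega)).1
  · intro i k
    rw [hent]
    exact ((hb k k.2).1.1 (num (m := m) (Sum.inl i)) (by rcases i with i | i <;> simp only [num] <;> omega)).2
  · intro k l
    rw [hent]
    exact (hb k k.2).1.2 l l.2
  · intro k l hkl
    rw [hent]
    rcases (hb k k.2).2 l l.2 with h | h
    · exact absurd h (by have : (k : ℕ) < l := hkl; omega)
    · exact h.1
  · intro k l hkl
    rw [hent]
    rcases (hb k k.2).2 l l.2 with h | h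
    · exact absurd h (by have : (k : ℕ) < l := hkl; omega)
    · exact h.2
  · intro k
    rw [hent, hent]
    exact hd k k.2

end Pool.Agent.Lib.MP_9d46ca_gt
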