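import Pool.Agent.Lib.MP_9d46ca_gt.Isom
import Pool.Agent.Lib.MP_9d46ca_gt.Lower

/-!
# The upper bounds
-/

set_option autoImplicit false

namespace Pool.Agent.Lib.MP_9d46ca_gt

open Matrix LaurentPolynomial

/-- The second Seifert matrix. -/
def V2 : Matrix (Fin 2 ⊕ Fin 2) (Fin 2 ⊕ Fin 2) ℤ := Matrix.fromBlocks VV 0 0 (-VV)ᵀ

/-- The variable `t`. -/
noncomputable abbrev tt : Lam := T 1
/-- The inverse `t⁻¹`. -/
noncomputable abbrev ss : Lam := T (-1)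

lemma tt_ss : tt * ss = 1 := by
  rw [tt, ss, ← T_add]; simp

/-- The Alexander polynomial. -/
noncomputable def DD : Lam := 53 * tt - 105 + 53 * ss

/-- The matrix of size two. -/
noncomputable def A2 : Matrix (Fin 2) (Fin 2) Lam := !![DD, 0; 0, -DD]

noncomputable def F2 : Matrix (Fin 2 ⊕ Fin 2) (Fin 2) Lam :=
  Matrix.fromRows !![2, 3; -4, 1] !![3, 2; 1, -4]

noncomputable def G2 : Matrix (Fin 2) (Fin 2 ⊕ Fin 2) Lam :=
  Matrix.fromCols
    !![-30 * tt + 56 - 26 * ss, 22 * tt - 46 + 24 * ss; 31 * tt - 63 + 32 * ss, 2 * tt - 1 - ss]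
    !![32 * tt - 63 + 31 * ss, -tt - 1 + 2 * ss; -26 * tt + 56 - 30 * ss, 24 * tt - 46 + 22 * ss]

noncomputable def C21 : Matrix (Fin 2 ⊕ Fin 2) (Fin 2) Lam :=
  Matrix.fromRows !![26 - 30 * ss, -32 + 31 * ss; -24 + 22 * ss, 1 + 2 * ss]
    !![-31 + 32 * ss, 30 - 26 * ss; -2 - ss, -22 + 24 * ss]

noncomputable def C22 : Matrix (Fin 2) (Fin 2 ⊕ Fin 2) Lam :=
  Matrix.fromCols !![2 * (1 - tt), -4 * (1 - tt); 3 * (1 - tt), 1 - tt]
    !![3 * (1 - tt), 1 - tt; 2 * (1 - tt), -4 * (1 - tt)]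

noncomputable def C24 : Matrix (Fin 2 ⊕ Fin 2) (Fin 2 ⊕ Fin 2) Lam :=
  Matrix.fromBlocks
    !![4 - 4 * ss, 12 - 13 * ss; 13 - 12 * ss, -10 + 10 * ss] !![0, 14 - 14 * ss; -14 + 14 * ss, 0]
    !![0, -14 + 14 * ss; 14 - 14 * ss, 0] !![-4 + 4 * ss, -13 + 12 * ss; -12 + 13 * ss, 10 - 10 * ss]

noncomputable def P2 : Matrix (Fin 2 ⊕ Fin 2) (Fin 2 ⊕ Fin 2) Lam :=
  Matrix.fromBlocks !![5 * tt - 5, tt - 2; 2 * tt - 1, 11 * tt - 11] 0 0
    !![5 - 5 * tt, 1 - 2 * tt; 2 - tt, 11 - 11 * tt]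

lemma alexMatrix_V2 : alexMatrix V2 = P2 := by
  ext1 i j
  rw [alexMatrix_apply]
  rcases i with i | i <;> rcases j with j | j <;> fin_cases i <;> fin_cases j <;>
    simp [V2, P2, VV, Matrix.fromBlocks] <;> ring

lemma h1_2 : F2 * A2 = P2 * C21 := by
  have h := tt_ss
  ext1 i j
  rcases i with i | i <;> fin_cases i <;> fin_cases j <;>
    simp [Matrix.mul_apply, Fintype.sum_sum_type, Fin.sum_univ_two, F2, A2, P2, C21, DD] <;> grind

lemma h2_2 : G2 * P2 = A2 * C22 := by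
  have h := tt_ss
  ext1 i j
  rcases j with j | j <;> fin_cases i <;> fin_cases j <;>
    simp [Matrix.mul_apply, Fintype.sum_sum_type, Fin.sum_univ_two, G2, A2, P2, C22, DD] <;> grind

lemma h3_2 : G2 * F2 = 1 + A2 * !![-1, 0; 0, 1] := by
  have h := tt_ss
  ext1 i j
  fin_cases i <;> fin_cases j <;>
    simp [Matrix.mul_apply, Fintype.sum_sum_type, Fin.sum_univ_two, G2, A2, F2, DD] <;> grind

lemma h4_2 : F2 * G2 = 1 + P2 * C24 := by
  have h := tt_ss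
  ext1 i j
  rcases i with i | i <;> rcases j with j | j <;> fin_cases i <;> fin_cases j <;>
    simp [Matrix.mul_apply, Fintype.sum_sum_type, Fin.sum_univ_two, F2, G2, P2, C24] <;> grind

lemma h5_2 : (1 - T 1 : Lam) • (conjT F2 * C21) = 1 + !![-1, 0; 0, 1] * A2 := by
  have h := tt_ss
  have i2 : (invert (2 : Lam)) = 2 := map_ofNat _ 2
  have i3 : (invert (3 : Lam)) = 3 := map_ofNat _ 3
  have i4 : (invert (4 : Lam)) = 4 := map_ofNat _ 4
  ext1 i j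
  fin_cases i <;> fin_cases j <;>
    simp [Matrix.mul_apply, Fintype.sum_sum_type, Fin.sum_univ_two, F2, A2, C21, conjT, DD,
      i2, i3, i4] <;> grind

lemma det_ne_zero_of_atOne {ι : Type} [Fintype ι] [DecidableEq ι] {A : Matrix ι ι Lam}
    (h : (atOne A).det ≠ 0) : A.det ≠ 0 := by
  intro h0
  apply h
  have : (atOne A).det = LaurentPolynomial.eval₂ (RingHom.id ℤ) 1 A.det := by
    rw [RingHom.map_det]; rfl
  rw [this, h0, map_zero]

lemma ev1_T (n : ℤ) : LaurentPolynomial.eval₂ (RingHom.id ℤ) (1 : ℤˣ) (T n) = 1 := by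
  rw [eval₂_T]; simp

lemma ev1_C (n : ℤ) : LaurentPolynomial.eval₂ (RingHom.id ℤ) (1 : ℤˣ) (C n) = n := by
  rw [eval₂_C]; rfl

lemma atOne_alexMatrix {ι : Type} (V : Matrix ι ι ℤ) : atOne (alexMatrix V) = V - Vᵀ := by
  ext1 i j
  simp only [atOne, map_apply, alexMatrix_apply, map_sub, map_mul, ev1_T, ev1_C, one_mul,
    Matrix.sub_apply, transpose_apply]

lemma atOne_A2 : atOne A2 = !![1, 0; 0, -1] := by
  have i1 : LaurentPolynomial.eval₂ (RingHom.id ℤ) (1 : ℤˣ) (53 : Lam) = 53 := map_ofNat _ 53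
  have i2 : LaurentPolynomial.eval₂ (RingHom.id ℤ) (1 : ℤˣ) (105 : Lam) = 105 := map_ofNat _ 105
  ext1 i j
  fin_cases i <;> fin_cases j <;> simp [atOne, A2, DD, i1, i2]

lemma conjT_A2 : conjT A2 = A2 := by
  have i1 : (invert (53 : Lam)) = 53 := map_ofNat _ 53
  have i2 : (invert (105 : Lam)) = 105 := map_ofNat _ 105
  ext1 i j
  fin_cases i <;> fin_cases j <;> simp [conjT, A2, DD, i1, i2] <;> ring

lemma det_sub_V2 : (V2 - V2ᵀ).det ≠ 0 := by
  have : V2 - V2ᵀ = Matrix.fromBlocks (VV - VVᵀ) 0 0 ((-VV)ᵀ - (-VV)) := by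
    rw [V2, Matrix.fromBlocks_transpose, Matrix.transpose_transpose, sub_eq_add_neg,
      Matrix.fromBlocks_neg, Matrix.fromBlocks_add]
    simp [sub_eq_add_neg]
  rw [this, Matrix.det_fromBlocks_zero₂₁, Matrix.det_fin_two, Matrix.det_fin_two]
  simp [VV]

lemma det_sub_V1 : (V1 - V1ᵀ).det ≠ 0 := by
  have : V1 - V1ᵀ = Matrix.fromBlocks (VV - VVᵀ) 0 0 ((-VV) - (-VV)ᵀ) := by
    rw [V1, Matrix.fromBlocks_transpose, sub_eq_add_neg,
      Matrix.fromBlocks_neg, Matrix.fromBlocks_add]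
    simp [sub_eq_add_neg]
  rw [this, Matrix.det_fromBlocks_zero₂₁, Matrix.det_fin_two, Matrix.det_fin_two]
  simp [VV]

lemma represents_V2 : Represents A2 V2 := by
  refine ⟨conjT_A2, det_ne_zero_of_atOne ?_, ?_, ?_⟩
  · rw [atOne_A2, Matrix.det_fin_two_of]
    norm_num
  · refine isometric_of_matrices (det_ne_zero_of_atOne ?_) (det_ne_zero_of_atOne ?_) F2 G2 C21 C22
      !![-1, 0; 0, 1] C24 !![-1, 0; 0, 1] ?_ ?_ h3_2 ?_ h5_2
    · rw [atOne_A2, Matrix.det_fin_two_of]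
      norm_num
    · rw [atOne_alexMatrix]
      exact det_sub_V2
    · rw [alexMatrix_V2]; exact h1_2
    · rw [alexMatrix_V2]; exact h2_2
    · rw [alexMatrix_V2]; exact h4_2
  · refine ⟨1, ![1, -1], ?_, ?_, ?_⟩
    · rw [Matrix.det_one]; exact isUnit_one
    · intro i; fin_cases i <;> simp
    · rw [atOne_A2]
      ext i j
      fin_cases i <;> fin_cases j <;> simp

/-! ### The first matrix -/

noncomputable def A1 : Matrix (Fin 4) (Fin 4) Lam :=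
  !![-5, tt - 2, 0, 0; ss - 2, -11 * (2 - tt - ss), 0, 0;
    0, 0, 5, 2 - tt; 0, 0, 2 - ss, 11 * (2 - tt - ss)]

noncomputable def F1 : Matrix (Fin 2 ⊕ Fin 2) (Fin 4) Lam :=
  Matrix.fromRows !![1, 0, 0, 0; 0, 53 * (1 - tt), 0, 0] !![0, 0, 1, 0; 0, 0, 0, 53 * (1 - tt)]

noncomputable def G1 : Matrix (Fin 4) (Fin 2 ⊕ Fin 2) Lam :=
  Matrix.fromCols !![1, 0; 0, 1 - ss; 0, 0; 0, 0] !![0, 0; 0, 0; 1, 0; 0, 1 - ss]

noncomputable def C11 : Matrix (Fin 2 ⊕ Fin 2) (Fin 4) Lam :=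
  Matrix.fromRows !![-2 + 2 * ss, 11 * tt - 33 + 22 * ss, 0, 0; 10 - 5 * ss, -55 * tt + 111 - 55 * ss, 0, 0]
    !![0, 0, -2 + 2 * ss, 11 * tt - 33 + 22 * ss; 0, 0, 10 - 5 * ss, -55 * tt + 111 - 55 * ss]

noncomputable def C12 : Matrix (Fin 4) (Fin 2 ⊕ Fin 2) Lam :=
  Matrix.fromCols !![1 - tt, 0; 0, 1; 0, 0; 0, 0] !![0, 0; 0, 0; 1 - tt, 0; 0, 1]

noncomputable def C13 : Matrix (Fin 4) (Fin 4) Lam :=
  !![0, 2 - tt, 0, 0; 0, -5, 0, 0; 0, 0, 0, tt - 2; 0, 0, 0, 5]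

noncomputable def C14 : Matrix (Fin 2 ⊕ Fin 2) (Fin 2 ⊕ Fin 2) Lam :=
  Matrix.fromBlocks !![0, 1 - 2 * ss; 0, -5 + 5 * ss] 0 0 !![0, 2 * ss - 1; 0, 5 - 5 * ss]

noncomputable def D1 : Matrix (Fin 4) (Fin 4) Lam :=
  !![0, 2 - tt, 0, 0; 2 - ss, 265 * tt - 535 + 265 * ss, 0, 0;
    0, 0, 0, tt - 2; 0, 0, ss - 2, -265 * tt + 535 - 265 * ss]

noncomputable def P1 : Matrix (Fin 2 ⊕ Fin 2) (Fin 2 ⊕ Fin 2) Lam :=
  Matrix.fromBlocks !![5 * tt - 5, tt - 2; 2 * tt - 1, 11 * tt - 11] 0 0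
    !![5 - 5 * tt, 2 - tt; 1 - 2 * tt, 11 - 11 * tt]

lemma alexMatrix_V1 : alexMatrix V1 = P1 := by
  ext1 i j
  rw [alexMatrix_apply]
  rcases i with i | i <;> rcases j with j | j <;> fin_cases i <;> fin_cases j <;>
    simp [V1, P1, VV, Matrix.fromBlocks] <;> ring

lemma h1_1 : F1 * A1 = P1 * C11 := by
  have h := tt_ss
  ext1 i j
  rcases i with i | i <;> fin_cases i <;> fin_cases j <;>
    simp [Matrix.mul_apply, Fintype.sum_sum_type, Fin.sum_univ_two, Fin.sum_univ_four,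
      F1, A1, P1, C11] <;> grind

lemma h2_1 : G1 * P1 = A1 * C12 := by
  have h := tt_ss
  ext1 i j
  rcases j with j | j <;> fin_cases i <;> fin_cases j <;>
    simp [Matrix.mul_apply, Fintype.sum_sum_type, Fin.sum_univ_two, Fin.sum_univ_four,
      G1, A1, P1, C12] <;> grind

lemma h3_1 : G1 * F1 = 1 + A1 * C13 := by
  have h := tt_ss
  ext1 i j
  fin_cases i <;> fin_cases j <;>
    simp [Matrix.mul_apply, Fintype.sum_sum_type, Fin.sum_univ_two,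
      G1, A1, F1, C13] <;> grind

lemma h4_1 : F1 * G1 = 1 + P1 * C14 := by
  have h := tt_ss
  ext1 i j
  rcases i with i | i <;> rcases j with j | j <;> fin_cases i <;> fin_cases j <;>
    simp [Matrix.mul_apply, Fintype.sum_sum_type, Fin.sum_univ_two, Fin.sum_univ_four,
      F1, G1, P1, C14] <;> grind

lemma h5_1 : (1 - T 1 : Lam) • (conjT F1 * C11) = 1 + D1 * A1 := by
  have h := tt_ss
  have i53 : (invert (53 : Lam)) = 53 := map_ofNat _ 53
  ext1 i j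
  fin_cases i <;> fin_cases j <;>
    simp [Matrix.mul_apply, Fintype.sum_sum_type, Fin.sum_univ_two,
      F1, A1, C11, D1, conjT, i53] <;> grind

lemma atOne_A1 : atOne A1 = !![-5, -1, 0, 0; -1, 0, 0, 0; 0, 0, 5, 1; 0, 0, 1, 0] := by
  have i1 : LaurentPolynomial.eval₂ (RingHom.id ℤ) (1 : ℤˣ) (5 : Lam) = 5 := map_ofNat _ 5
  have i2 : LaurentPolynomial.eval₂ (RingHom.id ℤ) (1 : ℤˣ) (2 : Lam) = 2 := map_ofNat _ 2
  have i3 : LaurentPolynomial.eval₂ (RingHom.id ℤ) (1 : ℤˣ) (11 : Lam) = 11 := map_ofNat _ 11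
  ext1 i j
  fin_cases i <;> fin_cases j <;> simp [atOne, A1, i1, i2, i3]

lemma conjT_A1 : conjT A1 = A1 := by
  have i1 : (invert (2 : Lam)) = 2 := map_ofNat _ 2
  have i2 : (invert (11 : Lam)) = 11 := map_ofNat _ 11
  have i3 : (invert (5 : Lam)) = 5 := map_ofNat _ 5
  ext1 i j
  fin_cases i <;> fin_cases j <;> simp [conjT, A1, i1, i2, i3] <;> first | done | (left; ring)

lemma det_atOne_A1 : (atOne A1).det ≠ 0 := by
  rw [atOne_A1]
  simp [Matrix.det_succ_row_zero, Fin.sum_univ_succ, Fin.succAbove]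

lemma represents_V1 : Represents A1 V1 := by
  refine ⟨conjT_A1, det_ne_zero_of_atOne det_atOne_A1, ?_, ?_⟩
  · refine isometric_of_matrices (det_ne_zero_of_atOne det_atOne_A1) (det_ne_zero_of_atOne ?_)
      F1 G1 C11 C12 C13 C14 D1 ?_ ?_ h3_1 ?_ h5_1
    · rw [atOne_alexMatrix]
      exact det_sub_V1
    · rw [alexMatrix_V1]; exact h1_1
    · rw [alexMatrix_V1]; exact h2_1
    · rw [alexMatrix_V1]; exact h4_1
  · refine ⟨!![1, 1, 0, 0; -2, -3, 0, 0; 0, 0, 1, 1; 0, 0, -2, -3], ![-1, 1, 1, -1], ?_, ?_, ?_⟩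
    · have : (!![1, 1, 0, 0; -2, -3, 0, 0; 0, 0, 1, 1; 0, 0, -2, -3] :
          Matrix (Fin 4) (Fin 4) ℤ).det = 1 := by
        simp [Matrix.det_succ_row_zero, Fin.sum_univ_succ, Fin.succAbove]
      rw [this]
      exact isUnit_one
    · intro i; fin_cases i <;> simp
    · rw [atOne_A1]
      ext i j
      fin_cases i <;> fin_cases j <;> simp [Matrix.mul_apply, Fin.sum_univ_four]

/-! ### The second module is not cyclic -/

/-- Evaluation at `2` modulo `5`. -/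
noncomputable def ev5 : Lam →+* ZMod 5 :=
  LaurentPolynomial.eval₂ (Int.castRingHom (ZMod 5)) ⟨2, 3, by decide, by decide⟩

lemma ev5_T : ev5 (T 1) = 2 := by
  rw [ev5, eval₂_T, zpow_one]

lemma ev5_C (n : ℤ) : ev5 (C n) = (n : ZMod 5) := by
  rw [ev5, eval₂_C]
  rfl

lemma ev5_range {a : Fin 2 ⊕ Fin 2 → Lam} (h : a ∈ LinearMap.range (alexMatrix V2).mulVecLin) :
    ev5 (a (Sum.inl 0)) = 0 ∧ 3 * ev5 (a (Sum.inr 0)) + ev5 (a (Sum.inr 1)) = 0 := by
  obtain ⟨c, rfl⟩ := h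
  have e0 : ((alexMatrix V2).mulVecLin c) (Sum.inl 0) =
      (T 1 * C 5 - C 5) * c (Sum.inl 0) + (T 1 * C 1 - C 2) * c (Sum.inl 1) := by
    rw [alexMatrix_mulVec, Fintype.sum_sum_type, Fin.sum_univ_two, Fin.sum_univ_two]
    simp [V2, VV]
  have e1 : ((alexMatrix V2).mulVecLin c) (Sum.inr 0) =
      (T 1 * C (-5) - C (-5)) * c (Sum.inr 0) + (T 1 * C (-2) - C (-1)) * c (Sum.inr 1) := by
    rw [alexMatrix_mulVec, Fintype.sum_sum_type, Fin.sum_univ_two, Fin.sum_univ_two]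
    simp [V2, VV]
  have e2 : ((alexMatrix V2).mulVecLin c) (Sum.inr 1) =
      (T 1 * C (-1) - C (-2)) * c (Sum.inr 0) + (T 1 * C (-11) - C (-11)) * c (Sum.inr 1) := by
    rw [alexMatrix_mulVec, Fintype.sum_sum_type, Fin.sum_univ_two, Fin.sum_univ_two]
    simp [V2, VV]
  rw [e0, e1, e2]
  simp only [map_add, map_mul, map_sub, ev5_T, ev5_C]
  generalize ev5 (c (Sum.inl 0)) = x
  generalize ev5 (c (Sum.inl 1)) = y
  generalize ev5 (c (Sum.inr 0)) = z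
  generalize ev5 (c (Sum.inr 1)) = w
  revert x y z w
  decide

lemma not_cyclic (u : Coker (alexMatrix V2))
    (h : ∀ z : Coker (alexMatrix V2), ∃ α : Lam, z = α • u) : False := by
  obtain ⟨u, rfl⟩ := cls_surjective _ u
  have key : ∀ a : Fin 2 ⊕ Fin 2 → Lam, ∃ α : Lam,
      ev5 (a (Sum.inl 0)) = ev5 α * ev5 (u (Sum.inl 0)) ∧
      3 * ev5 (a (Sum.inr 0)) + ev5 (a (Sum.inr 1)) =
        ev5 α * (3 * ev5 (u (Sum.inr 0)) + ev5 (u (Sum.inr 1))) := by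
    intro a
    obtain ⟨α, hα⟩ := h (cls _ a)
    rw [← cls_smul, cls_eq_iff] at hα
    obtain ⟨h1, h2⟩ := ev5_range hα
    simp only [Pi.sub_apply, Pi.smul_apply, smul_eq_mul, map_sub, map_mul] at h1 h2
    refine ⟨α, sub_eq_zero.mp h1, ?_⟩
    rw [← sub_eq_zero, ← h2]
    ring
  obtain ⟨α, h1, h2⟩ := key (Pi.single (Sum.inl 0) 1)
  obtain ⟨β, h3, h4⟩ := key (Pi.single (Sum.inr 1) 1)
  generalize 3 * ev5 (u (Sum.inr 0)) + ev5 (u (Sum.inr 1)) = q at *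
  generalize ev5 (u (Sum.inl 0)) = p at *
  have h1' : (1 : ZMod 5) = ev5 α * p := by
    rw [← h1]; simp
  have h2' : (0 : ZMod 5) = ev5 α * q := by
    rw [← h2]; simp
  have h3' : (0 : ZMod 5) = ev5 β * p := by
    rw [← h3]; simp
  have h4' : (1 : ZMod 5) = ev5 β * q := by
    rw [← h4]; simp
  have : (1 : ZMod 5) = 0 := by
    calc (1 : ZMod 5) = (ev5 α * p) * (ev5 β * q) := by rw [← h1', ← h4', one_mul]
      _ = (ev5 α * q) * (ev5 β * p) := by ring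
      _ = 0 := by rw [← h2', ← h3', zero_mul]
  exact absurd this (by decide)

/-- A matrix of size at most one does not present the second module. -/
lemma no_small_presentation_V2 {k : ℕ} (hk : k ≤ 1) (A : Matrix (Fin k) (Fin k) Lam)
    (e : Coker A ≃ₗ[Lam] Coker (alexMatrix V2)) : False := by
  classical
  have key : ∀ z : Coker (alexMatrix V2), ∃ c : Fin k → Lam,
      z = ∑ i, c i • e (cls A (Pi.single i 1)) := by
    intro z
    obtain ⟨c, hc⟩ := cls_surjective _ (e.symm z)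
    refine ⟨c, ?_⟩
    have h1 : z = e (cls A c) := by rw [hc, LinearEquiv.apply_symm_apply]
    have h2 : c = ∑ i, c i • (Pi.single i 1 : Fin k → Lam) := by
      ext j
      simp [Finset.sum_apply, Pi.single_apply]
    rw [h1]
    conv_lhs => rw [h2]
    rw [← clsL_apply, map_sum, map_sum]
    refine Finset.sum_congr rfl (fun i _ => ?_)
    rw [map_smul, map_smul, clsL_apply]
  interval_cases k
  · refine not_cyclic 0 (fun z => ?_)
    obtain ⟨c, hc⟩ := key z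
    refine ⟨0, ?_⟩
    rw [hc]
    simp
  · refine not_cyclic (e (cls _ (Pi.single 0 1))) (fun z => ?_)
    obtain ⟨c, hc⟩ := key z
    refine ⟨c 0, ?_⟩
    rw [hc]
    simp

/-! ### Summary -/

lemma nInv_V1_ge : 3 ≤ nInv V1 := by
  by_contra hc
  have hne : {k | ∃ A : Matrix (Fin k) (Fin k) Lam, Represents A V1}.Nonempty :=
    ⟨4, A1, represents_V1⟩
  obtain ⟨A, hA⟩ := Nat.sInf_mem hne
  obtain ⟨e, -⟩ := hA.2.2.1
  have h1 : nInv V1 ≤ 2 := by omega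
  exact no_small_presentation h1 A e

lemma nInv_V1_le : nInv V1 ≤ 4 := Nat.sInf_le ⟨A1, represents_V1⟩

lemma nInv_V2 : nInv V2 = 2 := by
  have hle : nInv V2 ≤ 2 := Nat.sInf_le ⟨A2, represents_V2⟩
  refine le_antisymm hle ?_
  by_contra hc
  have hne : {k | ∃ A : Matrix (Fin k) (Fin k) Lam, Represents A V2}.Nonempty :=
    ⟨2, A2, represents_V2⟩
  obtain ⟨A, hA⟩ := Nat.sInf_mem hne
  obtain ⟨e, -⟩ := hA.2.2.1
  have h1 : nInv V2 ≤ 1 := by omega
  exact no_small_presentation_V2 h1 A e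

end Pool.Agent.Lib.MP_9d46ca_gt
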