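import Pool.Agent.Lib.MP_9d46ca_gt.Table

/-!
# The two closed braids
-/

set_option autoImplicit false

namespace Pool.Agent.Lib.MP_9d46ca_gt

/-- A braid word on the strands `0, …, 14`. -/
def wordA : BraidWord :=
  [(4, true), (3, true), (2, true), (1, true), (0, false), (1, false), (2, false), (3, false),
  (4, false), (13, true), (12, true), (11, true), (10, true), (9, true), (8, true), (7, true),
  (6, true), (5, true), (4, true), (3, false), (4, false), (5, false), (6, false), (7, false),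
  (8, false), (9, false), (10, false), (11, false), (12, false), (13, false), (13, false), (12,
  false), (11, false), (10, false), (9, false), (8, false), (7, false), (6, false), (5, false),
  (4, false), (3, false), (2, false), (1, false), (0, false)]

/-- A braid word on the strands `14, …, 28`. -/
def wordB : BraidWord :=
  [(14, true), (15, true), (16, true), (17, true), (18, true), (19, true), (20, true), (21,
  true), (22, true), (23, true), (24, true), (25, true), (26, true), (27, true), (27, true),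
  (26, true), (25, true), (24, true), (23, true), (22, true), (21, true), (20, true), (19,
  true), (18, true), (17, true), (18, false), (19, false), (20, false), (21, false), (22,
  false), (23, false), (24, false), (25, false), (26, false), (27, false), (18, true), (17,
  true), (16, true), (15, true), (14, true), (15, false), (16, false), (17, false), (18,
  false)]

/-- The loops. -/
def lt1 : List (ℕ × ℕ) :=
  [(3, 5), (2, 6), (1, 7), (0, 8), (8, 18), (7, 19), (18, 20), (17, 21), (16, 22), (15, 23),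
  (14, 24), (13, 25), (12, 26), (11, 27), (10, 28), (9, 29), (29, 30), (28, 31), (27, 32), (26,
  33), (25, 34), (24, 35), (23, 36), (22, 37), (21, 38), (20, 39), (19, 40), (6, 41), (5, 42),
  (4, 43), (57, 58), (56, 59), (55, 60), (54, 61), (53, 62), (52, 63), (51, 64), (50, 65), (49,
  66), (48, 67), (47, 68), (67, 69), (66, 70), (65, 71), (64, 72), (63, 73), (62, 74), (61,
  75), (60, 76), (59, 77), (58, 78), (69, 79), (68, 80), (46, 81), (45, 82), (44, 83), (82,
  84), (81, 85), (80, 86), (79, 87)]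

/-- The reducing basis. -/
def pt1 : List (List (ℕ × ℤ)) :=
  [[(4, 1), (5, 1), (25, 1), (26, 1), (27, 1), (28, 1), (29, 1)], [(16, 1), (17, 1), (18, 1),
  (19, 1), (20, 1), (21, 1), (22, 1), (23, 1), (24, 1), (25, 1), (26, 1)], [(39, 1), (40, 1),
  (51, 1), (52, 1), (53, 1), (54, 1), (55, 1)], [(30, 1), (31, 1), (32, 1), (33, 1), (34, 1),
  (35, 1), (36, 1), (37, 1), (38, 1), (39, 1), (40, 1)], [(0, 1)], [(1, 1)], [(2, 1)], [(3,
  1)], [(6, 1)], [(8, 1)], [(9, 1)], [(10, 1)], [(11, 1)], [(12, 1)], [(13, 1)], [(14, 1)],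
  [(15, 1)], [(7, 1)], [(43, 1)], [(44, 1)], [(45, 1)], [(46, 1)], [(47, 1)], [(48, 1)], [(49,
  1)], [(50, 1)], [(56, 1)], [(57, 1)], [(58, 1)], [(59, 1)], [(41, 1)], [(42, 1)], [(28, 1)],
  [(27, 1)], [(5, 1)], [(4, 1)], [(25, 1)], [(23, 1)], [(22, 1)], [(21, 1)], [(20, 1)], [(19,
  1)], [(18, 1)], [(17, 1)], [(16, 1)], [(25, 1), (26, 1)], [(37, 1)], [(36, 1)], [(35, 1)],
  [(34, 1)], [(33, 1)], [(32, 1)], [(31, 1)], [(30, 1)], [(54, 1)], [(53, 1)], [(52, 1)], [(51,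
  1)], [(39, 1)], [(39, 1), (40, 1)]]

/-- The inverse of the reducing basis. -/
def qt1 : List (List (ℕ × ℤ)) :=
  [[(29, 1)], [(24, 1)], [(55, 1)], [(38, 1)], [(0, 1)], [(1, 1)], [(2, 1)], [(3, 1)], [(6,
  1)], [(8, 1)], [(9, 1)], [(10, 1)], [(11, 1)], [(12, 1)], [(13, 1)], [(14, 1)], [(15, 1)],
  [(7, 1)], [(43, 1)], [(44, 1)], [(45, 1)], [(46, 1)], [(47, 1)], [(48, 1)], [(49, 1)], [(50,
  1)], [(56, 1)], [(57, 1)], [(58, 1)], [(59, 1)], [(41, 1)], [(42, 1)], [(28, 1), (29, -1)],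
  [(27, 1), (29, -1)], [(5, 1), (29, -1)], [(4, 1), (29, -1)], [(25, 1), (26, -1)], [(23, 1),
  (24, -1)], [(22, 1), (24, -1)], [(21, 1), (24, -1)], [(20, 1), (24, -1)], [(19, 1), (24,
  -1)], [(18, 1), (24, -1)], [(17, 1), (24, -1)], [(16, 1), (24, -1)], [(24, -1), (26, 1), (29,
  -1)], [(37, 1), (38, -1)], [(36, 1), (38, -1)], [(35, 1), (38, -1)], [(34, 1), (38, -1)],
  [(33, 1), (38, -1)], [(32, 1), (38, -1)], [(31, 1), (38, -1)], [(30, 1), (38, -1)], [(54, 1),
  (55, -1)], [(53, 1), (55, -1)], [(52, 1), (55, -1)], [(51, 1), (55, -1)], [(39, 1), (40,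
  -1)], [(38, -1), (40, 1), (55, -1)]]

/-- The loops. -/
def lt2 : List (ℕ × ℕ) :=
  [(3, 5), (2, 6), (1, 7), (0, 8), (8, 18), (7, 19), (18, 20), (17, 21), (16, 22), (15, 23),
  (14, 24), (13, 25), (12, 26), (11, 27), (10, 28), (9, 29), (29, 30), (28, 31), (27, 32), (26,
  33), (25, 34), (24, 35), (23, 36), (22, 37), (21, 38), (20, 39), (19, 40), (6, 41), (5, 42),
  (4, 43), (47, 49), (46, 50), (45, 51), (44, 52), (52, 62), (51, 63), (62, 64), (61, 65), (60,
  66), (59, 67), (58, 68), (57, 69), (56, 70), (55, 71), (54, 72), (53, 73), (73, 74), (72,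
  75), (71, 76), (70, 77), (69, 78), (68, 79), (67, 80), (66, 81), (65, 82), (64, 83), (63,
  84), (50, 85), (49, 86), (48, 87)]

/-- The reducing basis. -/
def pt2 : List (List (ℕ × ℤ)) :=
  [[(4, 1), (5, 1), (25, 1), (26, 1), (27, 1), (28, 1), (29, 1)], [(16, 1), (17, 1), (18, 1),
  (19, 1), (20, 1), (21, 1), (22, 1), (23, 1), (24, 1), (25, 1), (26, 1)], [(33, -4), (34, 1),
  (55, 1)], [(33, -1), (37, -9), (55, 1), (56, 1)], [(0, 1)], [(1, 1)], [(2, 1)], [(3, 1)],
  [(6, 1)], [(8, 1)], [(9, 1)], [(10, 1)], [(11, 1)], [(12, 1)], [(13, 1)], [(14, 1)], [(15,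
  1)], [(7, 1)], [(30, 1), (59, 1)], [(30, -1), (31, 2), (58, 1)], [(31, -2), (32, 3), (57,
  1)], [(45, 1), (46, 1)], [(44, 2), (45, -1), (47, 1)], [(43, 3), (44, -2), (48, 1)], [(42,
  4), (43, -3), (49, 1)], [(41, 5), (42, -4), (50, 1)], [(40, 6), (41, -5), (51, 1)], [(39, 7),
  (40, -6), (52, 1)], [(38, 8), (39, -7), (53, 1)], [(36, 1), (56, 1)], [(37, 9), (38, -8),
  (54, 1)], [(32, -3), (33, 4), (35, 1)], [(28, 1)], [(27, 1)], [(5, 1)], [(4, 1)], [(25, 1)],
  [(23, 1)], [(22, 1)], [(21, 1)], [(20, 1)], [(19, 1)], [(18, 1)], [(17, 1)], [(16, 1)], [(25,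
  1), (26, 1)], [(30, 1)], [(31, 1)], [(32, 1)], [(45, 1)], [(44, 1)], [(43, 1)], [(42, 1)],
  [(41, 1)], [(40, 1)], [(39, 1)], [(38, 1)], [(34, 1)], [(37, 1)], [(33, 1)]]

/-- The inverse of the reducing basis. -/
def qt2 : List (List (ℕ × ℤ)) :=
  [[(29, 1)], [(24, 1)], [(36, 1), (55, 1), (56, -1)], [(36, -1), (56, 1)], [(0, 1)], [(1, 1)],
  [(2, 1)], [(3, 1)], [(6, 1)], [(8, 1)], [(9, 1)], [(10, 1)], [(11, 1)], [(12, 1)], [(13, 1)],
  [(14, 1)], [(15, 1)], [(7, 1)], [(59, 1)], [(58, 1)], [(57, 1)], [(46, 1)], [(47, 1)], [(48,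
  1)], [(49, 1)], [(50, 1)], [(51, 1)], [(52, 1)], [(53, 1)], [(36, 1)], [(54, 1)], [(35, 1)],
  [(28, 1), (29, -1)], [(27, 1), (29, -1)], [(5, 1), (29, -1)], [(4, 1), (29, -1)], [(25, 1),
  (26, -1)], [(23, 1), (24, -1)], [(22, 1), (24, -1)], [(21, 1), (24, -1)], [(20, 1), (24,
  -1)], [(19, 1), (24, -1)], [(18, 1), (24, -1)], [(17, 1), (24, -1)], [(16, 1), (24, -1)],
  [(24, -1), (26, 1), (29, -1)], [(30, 1), (58, 1), (59, -1)], [(31, 1), (57, 2), (58, -2)],
  [(32, 1), (35, 3), (57, -3)], [(45, 1), (46, -1), (47, 1)], [(44, 1), (47, -2), (48, 2)],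
  [(43, 1), (48, -3), (49, 3)], [(42, 1), (49, -4), (50, 4)], [(41, 1), (50, -5), (51, 5)],
  [(40, 1), (51, -6), (52, 6)], [(39, 1), (52, -7), (53, 7)], [(38, 1), (53, -8), (54, 8)],
  [(34, 1), (36, -1), (55, -1), (56, 1)], [(36, -9), (37, 1), (54, -9), (56, 9)], [(33, 1),
  (35, -4), (36, 3), (55, 4), (56, -3)]]

end Pool.Agent.Lib.MP_9d46ca_gt
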